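import Pool.Agent.H62.NF.Mix
import Pool.Graph.R_seed8.W795.TQ.DFin
import Pool.Graph.R_seed8.W52.TQ.Loc

/-!
The time of breakdown: scaling, restarting, and the transplantation of a breakdown into an
arbitrary strong solution.
-/

set_option autoImplicit false
set_option linter.unusedSectionVars false

open MeasureTheory Set Filter Topology
open scoped InnerProductSpace

namespace Pool.Agent.H62.NF

open H772R2.NSR (Frame prim_cont grad_unique)
open H772R2.NSG (mem_cont gl gl_le gl_gt gl_ge gl_ae gl_memLp gl_prim gl_int_le gl_int_ge LH)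
open Pool.Agent.W795.TQ
open Pool.Agent.X187.NSC (energy_of_weak str_toLH str_shift str_congrF str_weak_ab mcont
  FH.shift)

variable {H K : Type} [NormedAddCommGroup H] [InnerProductSpace ℝ H] [CompleteSpace H]
  [NormedAddCommGroup K] [InnerProductSpace ℝ K] [CompleteSpace K]
  {W : Submodule ℝ (H × K)} {m : H → K} {C ν T : ℝ}

theorem fh_scale {X : Type} [NormedAddCommGroup X] [InnerProductSpace ℝ X] [CompleteSpace X]
    {f f1 : ℝ → X} {l : ℝ} (hl : 0 < l) (hf : FH T f f1) :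
    FH (T / l) (fun t => f (l * t)) (fun t => l • f1 (l * t)) := by
  refine ⟨(memLp_scale hl hf.memLp).const_smul l, fun a b ha hab hb => ?_⟩
  rw [intervalIntegral.integral_smul, intervalIntegral.smul_integral_comp_mul_left]
  exact hf.prim _ _ (by positivity) (by gcongr) (by rwa [le_div_iff₀ hl, mul_comm] at hb)

theorem fh_csmul {X : Type} [NormedAddCommGroup X] [InnerProductSpace ℝ X] [CompleteSpace X]
    {f f1 : ℝ → X} (c : ℝ) (hf : FH T f f1) : FH T (fun t => c • f t) (fun t => c • f1 t) :=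
  fh_clm hf (c • ContinuousLinearMap.id ℝ X)

theorem str_scale (Fr : Frame W m C) (hsq : ∀ p ∈ W, ∀ c : ℝ, m (c • p.1) = c ^ 2 • m p.1)
    {l : ℝ} (hl : 0 < l) (hT : 0 < T) {F F1 : ℝ → K} (hF : FH T F F1) {u u1 : ℝ → H}
    {z z1 : ℝ → K} (S : Str W m ν T F u u1 z z1) :
    Str W m (l * ν) (T / l) (fun t => l ^ 2 • F (l * t)) (fun t => l • u (l * t))
      (fun t => l ^ 2 • u1 (l * t)) (fun t => l • z (l * t)) (fun t => l ^ 2 • z1 (l * t)) := by
  have hT' : 0 < T / l := by positivity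
  have hI : ∀ t ∈ Icc 0 (T / l), l * t ∈ Icc 0 T := fun t ht =>
    ⟨mul_nonneg hl.le ht.1, by rw [mul_comm]; exact (le_div_iff₀ hl).mp ht.2⟩
  have e : (fun t : ℝ => l * t) ⁻¹' Ioc 0 T = Ioc 0 (T / l) := by
    ext t
    simp only [mem_preimage, mem_Ioc, le_div_iff₀ hl]
    rw [mul_comm l t, mul_pos_iff_of_pos_right hl]
  have hq : Measure.QuasiMeasurePreserving (fun t : ℝ => l * t) (volume.restrict (Ioc 0 (T / l)))
      (volume.restrict (Ioc 0 T)) := by
    refine ⟨by fun_prop, ?_⟩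
    rw [← e, ← Measure.restrict_map (by fun_prop) measurableSet_Ioc,
      Real.map_volume_mul_left hl.ne', Measure.restrict_smul]
    exact Measure.smul_absolutelyContinuous
  have hmem : ∀ t ∈ Icc 0 (T / l), (l • u (l * t), l • z (l * t)) ∈ W := fun t ht =>
    W.smul_mem l (S.mem _ (hI t ht))
  have hu : FH (T / l) (fun t => l • u (l * t)) (fun t => l ^ 2 • u1 (l * t)) := by
    have := fh_csmul l (fh_scale hl (fh_u S))
    simpa only [smul_smul, ← sq] using this
  have hz : FH (T / l) (fun t => l • z (l * t)) (fun t => l ^ 2 • z1 (l * t)) := by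
    have := fh_csmul l (fh_scale hl (fh_z S))
    simpa only [smul_smul, ← sq] using this
  have hG := fh_csmul (l ^ 2) (fh_scale hl hF)
  have hweak : ∀ p ∈ W, ∀ t ∈ Icc 0 (T / l), ⟪l • u (l * t) - l • u (l * 0), p.1⟫_ℝ
      = ∫ s in (0 : ℝ)..t, ⟪l ^ 2 • F (l * s) - (l * ν) • l • z (l * s)
        + m (l • u (l * s)), p.2⟫_ℝ := by
    intro p hp t ht
    have h1 := S.weak p hp (l * t) (hI t ht)
    have h2 := intervalIntegral.smul_integral_comp_mul_left (a := 0) (b := t)
      (fun s => ⟪F s - ν • z s + m (u s), p.2⟫_ℝ) l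
    rw [mul_zero] at h2 ⊢
    rw [← smul_sub, real_inner_smul_left, h1, ← h2, smul_eq_mul, ← mul_assoc,
      ← intervalIntegral.integral_const_mul]
    refine intervalIntegral.integral_congr fun s hs => ?_
    rw [uIcc_of_le ht.1] at hs
    have h3 := hsq _ (S.mem _ (hI s ⟨hs.1, hs.2.trans ht.2⟩)) l
    simp only at h3 ⊢
    rw [h3]
    simp only [inner_sub_left, inner_add_left, real_inner_smul_left]
    ring
  refine ⟨hmem, ?_, ?_, hu.memLp, hz.memLp, hu.prim, hz.prim, hweak,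
    energy_of_weak Fr hT' (fh_cont hG) hmem hu.memLp hz.memLp hu.prim hz.prim hweak⟩
  · filter_upwards [hq.ae S.mem1] with s hs
    exact W.smul_mem (l ^ 2) hs
  · obtain ⟨c, hc⟩ := S.bd
    refine ⟨l ^ 2 * c, ?_⟩
    filter_upwards [hq.ae hc] with s hs
    rw [norm_smul, Real.norm_of_nonneg (by positivity)]
    gcongr

/-- The strong solution exists on `[0,t]` for `t < T` and does not exist on `[0,T]`. -/
def Bad (W : Submodule ℝ (H × K)) (m : H → K) (ν T : ℝ) (F : ℝ → K) (x : H) : Prop :=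
  (∀ t, 0 < t → t < T → ∃ (u u1 : ℝ → H) (z z1 : ℝ → K), Str W m ν t F u u1 z z1 ∧ u 0 = x) ∧
    ¬ ∃ (u u1 : ℝ → H) (z z1 : ℝ → K), Str W m ν T F u u1 z z1 ∧ u 0 = x

theorem bad_scale (Fr : Frame W m C) (hsq : ∀ p ∈ W, ∀ c : ℝ, m (c • p.1) = c ^ 2 • m p.1)
    {l : ℝ} (hl : 0 < l) (hT : 0 < T) {F F1 : ℝ → K} (hF : FH T F F1) {x : H}
    (hB : Bad W m ν T F x) :
    Bad W m (l * ν) (T / l) (fun t => l ^ 2 • F (l * t)) (l • x) := by
  refine ⟨fun t ht htT => ?_, ?_⟩
  · have h1 : 0 < l * t := by positivity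
    have h2 : l * t < T := by rw [mul_comm]; exact (lt_div_iff₀ hl).mp htT
    obtain ⟨u, u1, z, z1, S, h0⟩ := hB.1 (l * t) h1 h2
    have h := str_scale Fr hsq hl h1 (fh_mono' hF h2.le) S
    rw [mul_div_cancel_left₀ _ hl.ne'] at h
    exact ⟨_, _, _, _, h, by simp [h0]⟩
  · rintro ⟨u, u1, z, z1, S, h0⟩
    have hT' : 0 < T / l := by positivity
    have hli : 0 < l⁻¹ := inv_pos.mpr hl
    have hG := fh_csmul (l ^ 2) (fh_scale hl hF)
    have h := str_scale Fr hsq hli hT' hG S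
    have e1 : l⁻¹ * (l * ν) = ν := by field_simp
    have e2 : T / l / l⁻¹ = T := by field_simp
    rw [e1, e2] at h
    refine hB.2 ⟨_, _, _, _, str_congrF h fun t _ => ?_, by simp [h0, smul_smul, hl.ne']⟩
    have e3 : l * (l⁻¹ * t) = t := by field_simp
    rw [e3, smul_smul]
    have e4 : l⁻¹ ^ 2 * l ^ 2 = 1 := by field_simp
    rw [e4, one_smul]

/-- restarting at the time `a` -/
theorem bad_shift (Fr : Frame W m C) (hν : 0 < ν) {F F1 : ℝ → K} (hF : FH T F F1) {x : H}
    (hB : Bad W m ν T F x) {a : ℝ} (ha : 0 < a) (haT : a < T) :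
    ∃ x' : H, Bad W m ν (T - a) (fun t => F (a + t)) x' := by
  obtain ⟨v, v1, y, y1, A, hv0⟩ := hB.1 a ha haT
  refine ⟨v a, fun t ht htT => ?_, ?_⟩
  · obtain ⟨u, u1, z, z1, S, h0⟩ := hB.1 (a + t) (by linarith) (by linarith)
    have hF' := fh_mono' hF (show a + t ≤ T by linarith)
    have h := str_shift Fr hF' S ha.le (by linarith)
    rw [add_sub_cancel_left] at h
    refine ⟨_, _, _, _, h, ?_⟩
    have h2 := (str_unique Fr hν ha (by linarith) hF' S A (h0.trans hv0.symm) a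
      ⟨ha.le, le_rfl⟩).1
    simpa using h2
  · rintro ⟨u, u1, z, z1, S, h0⟩
    have hFa := fh_mono' hF haT.le
    have hFs : FH (T - a) (fun t => F (a + t)) (fun t => F1 (a + t)) :=
      FH.shift hF ha.le (by linarith)
    have h := str_gl Fr ha (by linarith : 0 < T - a) hFa hFs A S h0 (by simp)
    rw [add_sub_cancel] at h
    refine hB.2 ⟨_, _, _, _, str_congrF h fun t _ => ?_, ?_⟩
    · rcases le_or_gt t a with h | h
      · rw [gl_le h]
      · rw [gl_gt h, add_sub_cancel]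
    · rw [gl_le ha.le, hv0]

/-- following a strong solution and then breaking down -/
theorem bad_prepend (Fr : Frame W m C) (hν : 0 < ν) {a : ℝ} (ha : 0 < a) (hT : 0 < T)
    {D D1 : ℝ → K} (hD : FH a D D1) {F F1 : ℝ → K} (hF : FH T F F1) {v v1 : ℝ → H}
    {y y1 : ℝ → K} (A : Str W m ν a D v v1 y y1) (hFD : F 0 = D a)
    (hB : Bad W m ν T F (v a)) : Bad W m ν (a + T) (gl a D F) (v 0) := by
  have hG := fh_gl ha.le hT.le hD hF hFD
  refine ⟨fun t ht htT => ?_, ?_⟩
  · rcases le_or_gt t a with h | h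
    · exact ⟨_, _, _, _, str_congrF (A.mono h) fun s hs => gl_le (hs.2.trans h), rfl⟩
    · obtain ⟨u, u1, z, z1, S, h0⟩ := hB.1 (t - a) (by linarith) (by linarith)
      have h1 := str_gl Fr ha (by linarith : 0 < t - a) hD (fh_mono' hF (by linarith)) A S h0 hFD
      rw [add_sub_cancel] at h1
      exact ⟨_, _, _, _, h1, gl_le ha.le⟩
  · rintro ⟨u, u1, z, z1, S, h0⟩
    have h1 := str_shift Fr hG S ha.le (by linarith)
    rw [add_sub_cancel_left] at h1
    have hA : Str W m ν a (gl a D F) v v1 y y1 := str_congrF A fun s hs => gl_le hs.2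
    have h2 := (str_unique Fr hν ha (by linarith) hG S hA h0 a ⟨ha.le, le_rfl⟩).1
    refine hB.2 ⟨_, _, _, _, str_congrF h1 fun t ht => ?_, by simpa using h2⟩
    rw [gl_ge hFD (by linarith [ht.1]), add_sub_cancel_left]

end Pool.Agent.H62.NF
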