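import Pool.Graph.R_pool_sql_team_seeded_64922ed1.X187.NSC.PubData

/-!
Product rules for functions in `H¹(0,T)` with values in Hilbert spaces, and the bilinear map
behind the map `v ↦ v ⊗ v` of the frame.
-/

set_option autoImplicit false
set_option linter.unusedSectionVars false

open MeasureTheory Set Filter Topology
open scoped InnerProductSpace

namespace Pool.Agent.H62.NF

open H772R2.NSR (Frame prim_cont)
open H772R2.NSG (mem_cont)
open Pool.Agent.W795.TQ

section

variable {X Y Z : Type} [NormedAddCommGroup X] [InnerProductSpace ℝ X] [CompleteSpace X]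
  [NormedAddCommGroup Y] [InnerProductSpace ℝ Y] [CompleteSpace Y]
  [NormedAddCommGroup Z] [InnerProductSpace ℝ Z] [CompleteSpace Z] {T : ℝ}

theorem fh_cont {f f1 : ℝ → X} (hf : FH T f f1) : ContinuousOn f (Icc 0 T) :=
  prim_cont hf.memLp hf.prim

theorem ii_of_memLp {f1 : ℝ → X} (h : MemLp f1 2 (volume.restrict (Ioc 0 T))) {a b : ℝ}
    (ha : 0 ≤ a) (hab : a ≤ b) (hb : b ≤ T) : IntervalIntegrable f1 volume a b := by
  rw [intervalIntegrable_iff_integrableOn_Ioc_of_le hab]
  have : Integrable f1 (volume.restrict (Ioc 0 T)) := h.integrable (by norm_num)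
  exact this.mono_measure (Measure.restrict_mono (Ioc_subset_Ioc ha hb) le_rfl)

theorem fh_clm {f f1 : ℝ → X} (hf : FH T f f1) (A : X →L[ℝ] Y) :
    FH T (fun t => A (f t)) (fun t => A (f1 t)) := by
  refine ⟨A.comp_memLp' hf.memLp, fun a b ha hab hb => ?_⟩
  rw [← map_sub, hf.prim a b ha hab hb, A.intervalIntegral_comp_comm (ii_of_memLp hf.memLp ha hab hb)]

theorem fh_add {f f1 g g1 : ℝ → X} (hf : FH T f f1) (hg : FH T g g1) :
    FH T (fun t => f t + g t) (fun t => f1 t + g1 t) := by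
  refine ⟨hf.memLp.add hg.memLp, fun a b ha hab hb => ?_⟩
  rw [intervalIntegral.integral_add (ii_of_memLp hf.memLp ha hab hb)
    (ii_of_memLp hg.memLp ha hab hb), ← hf.prim a b ha hab hb, ← hg.prim a b ha hab hb]
  abel

theorem fh_neg {f f1 : ℝ → X} (hf : FH T f f1) : FH T (fun t => - f t) (fun t => - f1 t) := by
  refine ⟨hf.memLp.neg, fun a b ha hab hb => ?_⟩
  rw [intervalIntegral.integral_neg, ← hf.prim a b ha hab hb]
  abel

theorem fh_sub {f f1 g g1 : ℝ → X} (hf : FH T f f1) (hg : FH T g g1) :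
    FH T (fun t => f t - g t) (fun t => f1 t - g1 t) := by
  simpa [sub_eq_add_neg] using fh_add hf (fh_neg hg)

theorem fh_mono' {f f1 : ℝ → X} {τ : ℝ} (hf : FH T f f1) (h : τ ≤ T) : FH τ f f1 :=
  ⟨hf.memLp.mono_measure (Measure.restrict_mono (Ioc_subset_Ioc_right h) le_rfl),
    fun a b ha hab hb => hf.prim a b ha hab (hb.trans h)⟩

/-- a product of a function in `L²` and a continuous function -/
theorem memLp_bil {f : ℝ → X} {g : ℝ → Y} (hf : MemLp f 2 (volume.restrict (Ioc 0 T)))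
    (hg : ContinuousOn g (Icc 0 T)) (B : X →L[ℝ] Y →L[ℝ] Z) :
    MemLp (fun t => B (f t) (g t)) 2 (volume.restrict (Ioc 0 T)) := by
  obtain ⟨M, hM⟩ := (isCompact_Icc.image_of_continuousOn hg).isBounded.exists_norm_le
  have hgm : AEStronglyMeasurable g (volume.restrict (Ioc 0 T)) :=
    (hg.mono Ioc_subset_Icc_self).aestronglyMeasurable measurableSet_Ioc
  have hm : AEStronglyMeasurable (fun t => B (f t) (g t)) (volume.restrict (Ioc 0 T)) := by
    have hc : Continuous fun p : X × Y => B p.1 p.2 := by fun_prop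
    exact hc.comp_aestronglyMeasurable (hf.aestronglyMeasurable.prodMk hgm)
  refine MemLp.of_le_mul (c := ‖B‖ * M) hf hm ?_
  filter_upwards [ae_restrict_mem measurableSet_Ioc] with t ht
  have h1 := hM _ ⟨t, Ioc_subset_Icc_self ht, rfl⟩
  calc ‖B (f t) (g t)‖ ≤ ‖B‖ * ‖f t‖ * ‖g t‖ := B.le_opNorm₂ _ _
    _ ≤ ‖B‖ * ‖f t‖ * M := by gcongr
    _ = _ := by ring

/-- The product rule for bilinear maps. -/
theorem fh_bil {f f1 : ℝ → X} {g g1 : ℝ → Y} (hf : FH T f f1) (hg : FH T g g1)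
    (B : X →L[ℝ] Y →L[ℝ] Z) :
    FH T (fun t => B (f t) (g t)) (fun t => B (f1 t) (g t) + B (f t) (g1 t)) := by
  have m1 := memLp_bil hf.memLp (fh_cont hg) B
  have m2 : MemLp (fun t => B (f t) (g1 t)) 2 (volume.restrict (Ioc 0 T)) :=
    memLp_bil hg.memLp (fh_cont hf) B.flip
  refine ⟨m1.add m2, fun a b ha hab hb => ?_⟩
  refine ext_inner_left ℝ fun k => ?_
  -- the operator `A` with `⟪x, A y⟫ = ⟪k, B x y⟫`
  let β : Y →L[ℝ] X →L[ℝ] ℝ := (((innerSL ℝ k).postcomp X)).comp B.flip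
  have hβ : ∀ x y, β y x = ⟪k, B x y⟫_ℝ := fun x y => rfl
  let A : Y →L[ℝ] X := LinearMap.mkContinuous
    { toFun := fun y => (InnerProductSpace.toDual ℝ X).symm (β y)
      map_add' := fun y y' => by rw [map_add, map_add]
      map_smul' := fun c y => by rw [map_smul, map_smulₛₗ]; simp } ‖β‖ (fun y => by
        show ‖(InnerProductSpace.toDual ℝ X).symm (β y)‖ ≤ _
        rw [LinearIsometryEquiv.norm_map]
        exact β.le_opNorm y)
  have hA : ∀ x y, ⟪x, A y⟫_ℝ = ⟪k, B x y⟫_ℝ := by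
    intro x y
    rw [← hβ, real_inner_comm]
    show ⟪(InnerProductSpace.toDual ℝ X).symm (β y), x⟫_ℝ = _
    rw [InnerProductSpace.toDual_symm_apply]
  have hgA := fh_clm hg A
  have h := Pool.Agent.W503.TQ.prod_rule hf.memLp hgA.memLp hf.prim hgA.prim ha hab hb
  simp only [hA] at h
  have i1 := ii_of_memLp m1 ha hab hb
  have i2 := ii_of_memLp m2 ha hab hb
  rw [inner_sub_right, ← h, intervalIntegral.integral_add i1 i2, inner_add_right]
  congr 1
  · exact ((innerSL ℝ k).intervalIntegral_comp_comm i1)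
  · exact ((innerSL ℝ k).intervalIntegral_comp_comm i2)

theorem fh_smul {c c1 : ℝ → ℝ} {f f1 : ℝ → X} (hc : FH T c c1) (hf : FH T f f1) :
    FH T (fun t => c t • f t) (fun t => c1 t • f t + c t • f1 t) :=
  fh_bil hc hf (ContinuousLinearMap.lsmul ℝ ℝ)

end

end Pool.Agent.H62.NF
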