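import Pool.Agent.H62.NF.Quad

/-!
The map `v ↦ v ⊗ v` on `H¹_{0,σ}(Ω)` is quadratic.
-/

set_option autoImplicit false
set_option linter.unusedSectionVars false

open MeasureTheory Set Filter Topology
open scoped InnerProductSpace ENNReal

namespace Pool.Agent.H62.NF

open H772R2.NS

theorem isQuad_graphW {Ω : Set E3} (hΩ : IsOpen Ω) : IsQuad (graphW Ω) (tensL (Ω := Ω)) := by
  have hm : MeasurableSet Ω := hΩ.measurableSet
  have T : ∀ p : L2V Ω × L2M Ω, p ∈ graphW Ω →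
      (tensL p.1 : E3 → M3) =ᵐ[volume.restrict Ω] fun x => tens (p.1 x) := fun p hp =>
    tensL_coe hm hp
  constructor
  · intro p hp q hq r hr
    refine Lp.ext ?_
    filter_upwards [T _ hp, T _ hq, T _ hr, T _ (add_mem hp hq), T _ (add_mem hq hr),
      T _ (add_mem hp hr), T _ (add_mem (add_mem hp hq) hr),
      Lp.coeFn_add (tensL (p.1 + q.1 + r.1) + tensL p.1 + tensL q.1) (tensL r.1),
      Lp.coeFn_add (tensL (p.1 + q.1 + r.1) + tensL p.1) (tensL q.1),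
      Lp.coeFn_add (tensL (p.1 + q.1 + r.1)) (tensL p.1),
      Lp.coeFn_add (tensL (p.1 + q.1) + tensL (q.1 + r.1)) (tensL (p.1 + r.1)),
      Lp.coeFn_add (tensL (p.1 + q.1)) (tensL (q.1 + r.1)),
      Lp.coeFn_add (p.1 + q.1) r.1, Lp.coeFn_add p.1 q.1, Lp.coeFn_add q.1 r.1,
      Lp.coeFn_add p.1 r.1] with x a1 a2 a3 a4 a5 a6 a7 b1 b2 b3 b4 b5 c1 c2 c3 c4
    simp only [Prod.fst_add, Pi.add_apply] at a1 a2 a3 a4 a5 a6 a7 b1 b2 b3 b4 b5 c1 c2 c3 c4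
    rw [b1, b2, b3, b4, b5, a1, a2, a3, a4, a5, a6, a7, c1, c2, c3, c4]
    ext ⟨i, j⟩
    simp only [PiLp.add_apply, tens_apply]
    ring
  · intro p hp q hq c
    refine Lp.ext ?_
    filter_upwards [T _ hp, T _ hq, T _ (add_mem hp hq),
      T _ (add_mem (Submodule.smul_mem _ c hp) hq),
      Lp.coeFn_sub (tensL (c • p.1 + q.1) - c ^ 2 • tensL p.1) (tensL q.1),
      Lp.coeFn_sub (tensL (c • p.1 + q.1)) (c ^ 2 • tensL p.1),
      Lp.coeFn_smul (c ^ 2) (tensL p.1),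
      Lp.coeFn_smul c (tensL (p.1 + q.1) - tensL p.1 - tensL q.1),
      Lp.coeFn_sub (tensL (p.1 + q.1) - tensL p.1) (tensL q.1),
      Lp.coeFn_sub (tensL (p.1 + q.1)) (tensL p.1),
      Lp.coeFn_add (c • p.1) q.1, Lp.coeFn_add p.1 q.1, Lp.coeFn_smul c p.1]
      with x a1 a2 a3 a4 b1 b2 b3 b4 b5 b6 c1 c2 c3
    simp only [Prod.fst_add, Prod.smul_fst, Pi.add_apply, Pi.sub_apply, Pi.smul_apply]
      at a1 a2 a3 a4 b1 b2 b3 b4 b5 b6 c1 c2 c3
    rw [b1, b2, b3, b4, b5, b6, a1, a2, a3, a4, c1, c2, c3]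
    ext ⟨i, j⟩
    simp only [PiLp.sub_apply, PiLp.smul_apply, PiLp.add_apply, tens_apply, smul_eq_mul]
    ring
  · intro p hp c
    refine Lp.ext ?_
    filter_upwards [T _ hp, T _ (Submodule.smul_mem _ c hp), Lp.coeFn_smul (c ^ 2) (tensL p.1),
      Lp.coeFn_smul c p.1] with x a1 a2 b1 c1
    simp only [Prod.smul_fst, Pi.smul_apply] at a1 a2 b1 c1
    rw [b1, a1, a2, c1]
    ext ⟨i, j⟩
    simp only [PiLp.smul_apply, tens_apply, smul_eq_mul]
    ring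

end Pool.Agent.H62.NF
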