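import Pool.Graph.R_seed8.H772R2.NSR.PubR

/-!
Public definitions: admissible data, solvability and breakdown.
-/

open MeasureTheory Set H772R2.NS.Pub
open scoped InnerProductSpace

namespace Pool.Agent.H62.NF

/-- `u₀ ∈ V = H¹_{0,σ}(Ω)` with gradient `G₀`, and the initial acceleration
`νΔu₀ - (u₀·∇)u₀ + f₀`, where `⟨f₀, φ⟩ = (F₀, ∇φ)`, is in `L²` up to a gradient. (If `Ω` is smooth and
`u₀ ∈ V ∩ H²`, this says `f₀ ∈ H` up to a gradient.) -/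
structure IsState (Ω : Set R3) (ν : ℝ) (u₀ : L2 Ω R3) (G₀ F₀ : L2 Ω Mat) : Prop where
  grad : (u₀, G₀) ∈ H1graph Ω
  comp : ∃ h : L2 Ω R3, ∀ φ, IsTest Ω φ → rhs ν u₀ G₀ F₀ φ = ∫ x in Ω, ⟪h.fn x, φ x⟫_ℝ

/-- The problem with the initial velocity `u₀`, viscosity `ν` and force `⟨f(t), φ⟩ = (F(t), ∇φ)` has a
strong solution on `[0,T]`, with `∂ₜu ∈ L²(0,T;V) ∩ L^∞(0,T;L²)`. -/
def HasStrong (Ω : Set R3) (ν T : ℝ) (u₀ : L2 Ω R3) (F : ℝ → L2 Ω Mat) : Prop :=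
  ∃ u u' G G', IsStrong Ω ν T F u u' G G' ∧ u 0 = u₀

/-- All admissible problems in `Ω` with viscosity `ν` have strong solutions on `[0,T]`. -/
def AllStrong (Ω : Set R3) (ν T : ℝ) : Prop :=
  ∀ (u₀ : L2 Ω R3) (G₀ : L2 Ω Mat) (F F' : ℝ → L2 Ω Mat), IsState Ω ν u₀ G₀ (F 0) →
    IsH1 T F F' → HasStrong Ω ν T u₀ F

end Pool.Agent.H62.NF
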