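import Pool.Agent.H62.NF.Trans
import Pool.Agent.H62.NF.Conc

/-!
The existence of a time of breakdown, and the abstract form of the result.
-/

set_option autoImplicit false
set_option linter.unusedSectionVars false

open MeasureTheory Set Filter Topology
open scoped InnerProductSpace ContDiff

namespace Pool.Agent.H62.NF

open H772R2.NSR (Frame prim_cont grad_unique)
open Pool.Agent.W795.TQ
open Pool.Agent.X187.NSC (str_congrF Dat Adm Good)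

variable {H K : Type} [NormedAddCommGroup H] [InnerProductSpace ℝ H] [CompleteSpace H]
  [NormedAddCommGroup K] [InnerProductSpace ℝ K] [CompleteSpace K]
  {W : Submodule ℝ (H × K)} {m : H → K} {C ν T : ℝ}

theorem exists_bad (Fr : Frame W m C)
    (hc : ∀ R : ℝ, TotallyBounded {v : H | ∃ z, (v, z) ∈ W ∧ ‖z‖ ≤ R})
    (hν : 0 < ν) (hT : 0 < T) {F F1 : ℝ → K} (hF : FH T F F1) {x g : H} {z0 : K}
    (h0 : (x, z0) ∈ W) (hg : ∀ p ∈ W, ⟪F 0 - ν • z0 + m x, p.2⟫_ℝ = ⟪g, p.1⟫_ℝ)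
    (hno : ¬ ∃ (u u1 : ℝ → H) (z z1 : ℝ → K), Str W m ν T F u u1 z z1 ∧ u 0 = x) :
    ∃ τ, 0 < τ ∧ τ ≤ T ∧ Bad W m ν τ F x := by
  have hloc := fun N hN => Pool.Agent.W52.TQ.proof_loc H K W m C ν T F F1 x g z0 N Fr hc hν hT hF
    h0 hg hN
  set S := TS W m ν T F x with hS
  have hne : S.Nonempty := by
    obtain ⟨τ, u, u1, z, z1, h1, h2, h3, h4, _⟩ := hloc (‖z0‖ + 1) (by linarith)
    exact ⟨τ, h1, h2, u, u1, z, z1, h3, h4⟩
  have hbd : BddAbove S := ⟨T, fun τ h => h.2.1⟩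
  obtain ⟨τ0, hτ0⟩ := hne
  have hpos : 0 < sSup S := hτ0.1.trans_le (le_csSup hbd hτ0)
  have hle : sSup S ≤ T := csSup_le ⟨τ0, hτ0⟩ fun τ h => h.2.1
  refine ⟨sSup S, hpos, hle, fun t ht htS => ?_, ?_⟩
  · obtain ⟨τ, hτ, htτ⟩ := exists_lt_of_lt_csSup ⟨τ0, hτ0⟩ htS
    obtain ⟨_, _, u, u1, z, z1, h3, h4⟩ := hτ
    exact ⟨u, u1, z, z1, h3.mono htτ.le, h4⟩
  · rintro ⟨u, u1, z, z1, h3, h4⟩
    obtain ⟨Z, hZ⟩ := (isCompact_Icc.image_of_continuousOn (fh_cont (fh_z h3))).isBounded.exists_norm_le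
    obtain ⟨τ, v, v1, y, y1, k1, k2, k3, k4, k5⟩ := hloc (max Z ‖z0‖ + 1) (by
      have := le_max_right Z ‖z0‖
      linarith)
    have hτS : τ ≤ sSup S := le_csSup hbd ⟨k1, k2, v, v1, y, y1, k3, k4⟩
    rcases k5 with k5 | k5
    · exact hno ⟨v, v1, y, y1, k5 ▸ k3, k4⟩
    · have h5 := (str_unique Fr hν k1 hτS (fh_mono' hF hle) h3 k3 (h4.trans k4.symm) τ
        ⟨k1.le, le_rfl⟩).2
      have h6 := hZ _ ⟨τ, ⟨k1.le, hτS⟩, rfl⟩
      have h7 := le_max_left Z ‖z0‖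
      rw [← h5] at k5
      linarith

/-- The abstract form: breakdown at will. -/
theorem abs_main (Fr : Frame W m C) (Q : IsQuad W m)
    (hc : ∀ R : ℝ, TotallyBounded {v : H | ∃ z, (v, z) ∈ W ∧ ‖z‖ ≤ R})
    {ν0 T0 : ℝ} (hν0 : 0 < ν0) (hT0 : 0 < T0) {d : Dat H K} (hd : Adm W m ν0 T0 d)
    (hbad : ¬ Good W m ν0 T0 d) (hν : 0 < ν) {S : ℝ} {D D1 : ℝ → K} (hD : FH S D D1)
    {v v1 : ℝ → H} {y y1 : ℝ → K} (A : Str W m ν S D v v1 y y1) {s t : ℝ} (hs : 0 ≤ s)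
    (hsS : s < S) (hst : s < t) :
    ∃ G G1 : ℝ → K, FH t G G1 ∧ (∀ r ∈ Icc 0 s, G r = D r) ∧ Bad W m ν t G (v 0) := by
  obtain ⟨R, hR⟩ := exists_lift Fr
  obtain ⟨B, hB, _⟩ := exists_bil Fr Q
  obtain ⟨τ, hτ, hτT, hBad⟩ := exists_bad Fr hc hν0 hT0 hd.force hd.mem hd.comp hbad
  have hl : 0 < ν / ν0 := by positivity
  have h1 := bad_scale Fr Q.sq hl hτ (fh_mono' hd.force hτT) hBad
  rw [div_mul_cancel₀ _ hν0.ne'] at h1
  exact bad_main2 Fr hν hR hB (by positivity)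
    (fh_csmul ((ν / ν0) ^ 2) (fh_scale hl (fh_mono' hd.force hτT))) h1 hD A hs hsS hst

end Pool.Agent.H62.NF
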