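import Pool.Agent.H62.NF.Time

/-!
Interpolation between two strong solutions.
-/

set_option autoImplicit false
set_option linter.unusedSectionVars false

open MeasureTheory Set Filter Topology
open scoped InnerProductSpace

namespace Pool.Agent.H62.NF

open H772R2.NSR (Frame prim_cont grad_unique)
open H772R2.NSG (mem_cont)
open Pool.Agent.W795.TQ
open Pool.Agent.X187.NSC (energy_of_weak str_toLH str_shift str_congrF str_weak_ab mcont)

variable {H K : Type} [NormedAddCommGroup H] [InnerProductSpace ℝ H] [CompleteSpace H]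
  [NormedAddCommGroup K] [InnerProductSpace ℝ K] [CompleteSpace K]
  {W : Submodule ℝ (H × K)} {m : H → K} {C ν T : ℝ}

theorem fh_u {F : ℝ → K} {u u1 : ℝ → H} {z z1 : ℝ → K} (S : Str W m ν T F u u1 z z1) :
    FH T u u1 := ⟨S.u1m, S.pu⟩

theorem fh_z {F : ℝ → K} {u u1 : ℝ → H} {z z1 : ℝ → K} (S : Str W m ν T F u u1 z z1) :
    FH T z z1 := ⟨S.z1m, S.pz⟩

/-- `m ∘ u` is in `H¹(0,T)` -/
theorem fh_m {B : K →L[ℝ] K →L[ℝ] K} (hB : ∀ p ∈ W, m p.1 = B p.2 p.2) {u : ℝ → H}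
    {z z1 : ℝ → K} (hz : FH T z z1) (hmem : ∀ t ∈ Icc 0 T, (u t, z t) ∈ W) :
    FH T (fun t => m (u t)) (fun t => B (z1 t) (z t) + B (z t) (z1 t)) :=
  fh_congr (fh_bil hz hz B) fun t ht => hB _ (hmem t ht)

/-- the force of the interpolation -/
noncomputable def mixF (m : H → K) (R : H →L[ℝ] K) (θ θ1 : ℝ → ℝ) (F D : ℝ → K)
    (v u : ℝ → H) (t : ℝ) : K :=
  θ t • F t + (1 - θ t) • D t + θ t • m (v t) + (1 - θ t) • m (u t)
    - m (θ t • v t + (1 - θ t) • u t) + θ1 t • R (v t - u t)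

theorem fh_ofInt {f : ℝ → ℝ} (hf : ContinuousOn f (Icc 0 T)) {g : ℝ → ℝ}
    (h : ∀ a b, 0 ≤ a → a ≤ b → b ≤ T → g b - g a = ∫ s in a..b, f s) : FH T g f :=
  ⟨mem_cont hf, h⟩

theorem str_mix (Fr : Frame W m C) (hT : 0 < T) {R : H →L[ℝ] K}
    (hR : ∀ h : H, ∀ p ∈ W, ⟪R h, p.2⟫_ℝ = ⟪h, p.1⟫_ℝ)
    {B : K →L[ℝ] K →L[ℝ] K} (hB : ∀ p ∈ W, m p.1 = B p.2 p.2)
    {θ θ1 θ2 : ℝ → ℝ} (hθ : FH T θ θ1) (hθ1 : FH T θ1 θ2)
    {F F1 D D1 : ℝ → K} (hF : FH T F F1) (hD : FH T D D1)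
    {v v1 u u1 : ℝ → H} {y y1 z z1 : ℝ → K}
    (A : Str W m ν T F v v1 y y1) (S : Str W m ν T D u u1 z z1) :
    Str W m ν T (mixF m R θ θ1 F D v u) (fun t => θ t • v t + (1 - θ t) • u t)
      (fun t => (θ1 t • v t + θ t • v1 t) + ((-θ1 t) • u t + (1 - θ t) • u1 t))
      (fun t => θ t • y t + (1 - θ t) • z t)
      (fun t => (θ1 t • y t + θ t • y1 t) + ((-θ1 t) • z t + (1 - θ t) • z1 t)) ∧
    ∃ G1, FH T (mixF m R θ θ1 F D v u) G1 := by
  have hφ : FH T (fun t => 1 - θ t) (fun t => - θ1 t) := by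
    have := fh_sub (fh_const (T := T) (1 : ℝ)) hθ
    simpa using this
  have hw := fh_add (fh_smul hθ (fh_u A)) (fh_smul hφ (fh_u S))
  have hzw := fh_add (fh_smul hθ (fh_z A)) (fh_smul hφ (fh_z S))
  have hmem : ∀ t ∈ Icc 0 T, (θ t • v t + (1 - θ t) • u t, θ t • y t + (1 - θ t) • z t) ∈ W := by
    intro t ht
    exact W.add_mem (W.smul_mem (θ t) (A.mem t ht)) (W.smul_mem (1 - θ t) (S.mem t ht))
  have hmem1 : ∀ᵐ s ∂(volume.restrict (Ioc 0 T)),
      ((θ1 s • v s + θ s • v1 s) + ((-θ1 s) • u s + (1 - θ s) • u1 s),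
        (θ1 s • y s + θ s • y1 s) + ((-θ1 s) • z s + (1 - θ s) • z1 s)) ∈ W := by
    filter_upwards [A.mem1, S.mem1, ae_restrict_mem measurableSet_Ioc] with s h1 h2 hs
    have hs' := Ioc_subset_Icc_self hs
    exact W.add_mem (W.add_mem (W.smul_mem (θ1 s) (A.mem s hs')) (W.smul_mem (θ s) h1))
      (W.add_mem (W.smul_mem (-θ1 s) (S.mem s hs')) (W.smul_mem (1 - θ s) h2))
  obtain ⟨G1, hG⟩ : ∃ G1, FH T (mixF m R θ θ1 F D v u) G1 := by
    have h1 := fh_smul hθ hF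
    have h2 := fh_smul hφ hD
    have h3 := fh_smul hθ (fh_m hB (fh_z A) A.mem)
    have h4 := fh_smul hφ (fh_m hB (fh_z S) S.mem)
    have h5 := fh_m hB hzw hmem
    have h6 := fh_smul hθ1 (fh_clm (fh_sub (fh_u A) (fh_u S)) R)
    exact ⟨_, fh_add (fh_sub (fh_add (fh_add (fh_add h1 h2) h3) h4) h5) h6⟩
  have hGc := fh_cont hG
  have hweak : ∀ p ∈ W, ∀ t ∈ Icc 0 T, ⟪(θ t • v t + (1 - θ t) • u t)
        - (θ 0 • v 0 + (1 - θ 0) • u 0), p.1⟫_ℝ
      = ∫ s in (0 : ℝ)..t, ⟪mixF m R θ θ1 F D v u s - ν • (θ s • y s + (1 - θ s) • z s)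
        + m (θ s • v s + (1 - θ s) • u s), p.2⟫_ℝ := by
    intro p hp t ht
    have hvc : ContinuousOn v (Icc 0 T) := fh_cont (fh_u A)
    have huc : ContinuousOn u (Icc 0 T) := fh_cont (fh_u S)
    have hyc : ContinuousOn y (Icc 0 T) := fh_cont (fh_z A)
    have hzc : ContinuousOn z (Icc 0 T) := fh_cont (fh_z S)
    have cα : ContinuousOn (fun s => ⟪F s - ν • y s + m (v s), p.2⟫_ℝ) (Icc 0 T) :=
      (((fh_cont hF).sub (hyc.const_smul ν)).add (mcont Fr A.mem hvc hyc)).inner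
        continuousOn_const
    have cβ : ContinuousOn (fun s => ⟪D s - ν • z s + m (u s), p.2⟫_ℝ) (Icc 0 T) :=
      (((fh_cont hD).sub (hzc.const_smul ν)).add (mcont Fr S.mem huc hzc)).inner
        continuousOn_const
    have a1 : FH T (fun t => ⟪v t, p.1⟫_ℝ) (fun s => ⟪F s - ν • y s + m (v s), p.2⟫_ℝ) :=
      fh_ofInt cα fun a b ha hab hb => by
        rw [← str_weak_ab Fr hF A hp ha hab hb, inner_sub_left]
    have a2 : FH T (fun t => ⟪u t, p.1⟫_ℝ) (fun s => ⟪D s - ν • z s + m (u s), p.2⟫_ℝ) :=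
      fh_ofInt cβ fun a b ha hab hb => by
        rw [← str_weak_ab Fr hD S hp ha hab hb, inner_sub_left]
    have h := (fh_add (fh_smul hθ a1) (fh_smul hφ a2)).prim 0 t le_rfl ht.1 ht.2
    have e1 : ⟪(θ t • v t + (1 - θ t) • u t) - (θ 0 • v 0 + (1 - θ 0) • u 0), p.1⟫_ℝ
        = (θ t • ⟪v t, p.1⟫_ℝ + (1 - θ t) • ⟪u t, p.1⟫_ℝ)
          - (θ 0 • ⟪v 0, p.1⟫_ℝ + (1 - θ 0) • ⟪u 0, p.1⟫_ℝ) := by
      simp only [inner_sub_left, inner_add_left, real_inner_smul_left, smul_eq_mul]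
    rw [e1, h]
    refine intervalIntegral.integral_congr fun s _ => ?_
    simp only [mixF, inner_sub_left, inner_add_left, real_inner_smul_left, smul_eq_mul,
      hR _ p hp]
    ring
  refine ⟨⟨hmem, hmem1, ?_, hw.memLp, hzw.memLp, hw.prim, hzw.prim, hweak,
    energy_of_weak Fr hT hGc hmem hw.memLp hzw.memLp hw.prim hzw.prim hweak⟩, G1, hG⟩
  -- the bound of the time derivative
  obtain ⟨c, hc⟩ := A.bd
  obtain ⟨d, hd⟩ := S.bd
  obtain ⟨V, hV⟩ := (isCompact_Icc.image_of_continuousOn (fh_cont (fh_u A))).isBounded.exists_norm_le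
  obtain ⟨U, hU⟩ := (isCompact_Icc.image_of_continuousOn (fh_cont (fh_u S))).isBounded.exists_norm_le
  obtain ⟨a, ha⟩ := (isCompact_Icc.image_of_continuousOn (fh_cont hθ)).isBounded.exists_norm_le
  obtain ⟨a', ha'⟩ := (isCompact_Icc.image_of_continuousOn (fh_cont hθ1)).isBounded.exists_norm_le
  refine ⟨(a' * V + a * c) + (a' * U + (1 + a) * d), ?_⟩
  filter_upwards [hc, hd, ae_restrict_mem measurableSet_Ioc] with s h1 h2 hs
  have hs' := Ioc_subset_Icc_self hs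
  have k1 := hV _ ⟨s, hs', rfl⟩
  have k2 := hU _ ⟨s, hs', rfl⟩
  have k3 := ha _ ⟨s, hs', rfl⟩
  have k4 := ha' _ ⟨s, hs', rfl⟩
  have k5 : ‖(1 : ℝ) - θ s‖ ≤ 1 + a := (norm_sub_le _ _).trans (by
    rw [norm_one]; linarith)
  have k6 : 0 ≤ a := (norm_nonneg _).trans k3
  have k7 : 0 ≤ a' := (norm_nonneg _).trans k4
  refine (norm_add_le _ _).trans (add_le_add ((norm_add_le _ _).trans (add_le_add ?_ ?_))
    ((norm_add_le _ _).trans (add_le_add ?_ ?_)))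
  · rw [norm_smul]; gcongr
  · rw [norm_smul]; gcongr
  · rw [norm_smul, norm_neg]; gcongr
  · rw [norm_smul]; gcongr

/-- scaling -/
theorem memLp_scale {X : Type} [NormedAddCommGroup X] {f : ℝ → X} {l : ℝ} (hl : 0 < l)
    (hf : MemLp f 2 (volume.restrict (Ioc 0 T))) :
    MemLp (fun t => f (l * t)) 2 (volume.restrict (Ioc 0 (T / l))) := by
  have e : (fun t : ℝ => l * t) ⁻¹' Ioc 0 T = Ioc 0 (T / l) := by
    ext t
    simp only [mem_preimage, mem_Ioc, le_div_iff₀ hl]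
    rw [mul_comm l t, mul_pos_iff_of_pos_right hl]
  have hmap : Measure.map (fun t : ℝ => l * t) (volume.restrict (Ioc 0 (T / l)))
      = ENNReal.ofReal (l⁻¹) • volume.restrict (Ioc 0 T) := by
    rw [← e, ← Measure.restrict_map (by fun_prop) measurableSet_Ioc,
      Real.map_volume_mul_left hl.ne', Measure.restrict_smul, abs_of_pos (inv_pos.mpr hl)]
  have h1 : MemLp f 2 (Measure.map (fun t : ℝ => l * t) (volume.restrict (Ioc 0 (T / l)))) := by
    rw [hmap]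
    exact hf.smul_measure (by simp)
  exact (memLp_map_measure_iff h1.aestronglyMeasurable (by fun_prop)).mp h1

end Pool.Agent.H62.NF
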