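import Pool.Agent.H62.NF.Exist
import Pool.Agent.H62.NF.Defs

/-!
The public form of the result on breakdown at will.
-/

set_option autoImplicit false

open MeasureTheory Set Filter Topology
open scoped InnerProductSpace ContDiff

namespace Pool.Agent.H62.NF

open H772R2.NS H772R2.NS.Pub H772R2.NSR
open Pool.Agent.W795.TQ
open Pool.Agent.X187.NSC Pool.Agent.X187.NSD

theorem fh_ext {K : Type} [NormedAddCommGroup K] [InnerProductSpace ℝ K] [CompleteSpace K]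
    {t : ℝ} (ht : 0 < t) {F F1 : ℝ → K} (hF : FH t F F1) (S : ℝ) :
    FH S (pa t F fun _ => F t) (pa t F1 fun _ => 0) := by
  rcases le_or_gt t S with h | h
  · exact fh_pa ht.le h hF (fh_const (F t)) rfl
  · have h1 := fh_pa ht.le le_rfl hF (fh_const (F t)) rfl
    exact fh_mono' h1 h.le

theorem not_all {Ω : Set R3} {ν T : ℝ} (h : ¬ AllStrong Ω ν T) :
    ∃ (u₀ : L2 Ω R3) (G₀ : L2 Ω Mat) (F F' : ℝ → L2 Ω Mat), IsState Ω ν u₀ G₀ (F 0) ∧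
      MemLp F' 2 (volume.restrict (Ioc 0 T)) ∧
      (∀ a b, 0 ≤ a → a ≤ b → b ≤ T → F b - F a = ∫ s in a..b, F' s) ∧
      ¬ HasStrong Ω ν T u₀ F := by
  unfold AllStrong at h
  push Not at h
  obtain ⟨x, z, E, E', h1, h2, h3⟩ := h
  exact ⟨x, z, E, E', h1, h2.memLp, h2.prim, h3⟩

variable {Ω : Set E3}

theorem fh_pub {T : ℝ} {F F' : ℝ → L2M Ω}
    (h : IsH1 (E := L2 (show Set R3 from Ω) Mat) T F F') : FH T F F' := ⟨h.memLp, h.prim⟩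

theorem state_iff (hΩ : IsOpen Ω) {ν : ℝ} {x : L2V Ω} {z f : L2M Ω} :
    IsState (show Set R3 from Ω) ν x z f ↔
      (x, z) ∈ graphW Ω ∧ ∃ g : L2V Ω, ∀ p ∈ graphW Ω,
        ⟪f - ν • z + tensL x, p.2⟫_ℝ = ⟪g, p.1⟫_ℝ := by
  constructor
  · rintro ⟨h1, g, h2⟩
    exact ⟨mem_pub.mpr h1, g, (comp_iff hΩ (mem_pub.mpr h1)).mp h2⟩
  · rintro ⟨h1, g, h2⟩
    exact ⟨mem_pub.mp h1, g, (comp_iff hΩ h1).mpr h2⟩

theorem has_iff (hΩ : IsOpen Ω) {C ν T : ℝ} (Fr : Frame (graphW Ω) (tensL (Ω := Ω)) C)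
    (hT : 0 < T) {F F' : ℝ → L2M Ω} (hF : FH T F F') {x : L2V Ω} :
    HasStrong (show Set R3 from Ω) ν T x F ↔
      ∃ (u u1 : ℝ → L2V Ω) (z z1 : ℝ → L2M Ω), Str (graphW Ω) tensL ν T F u u1 z z1 ∧ u 0 = x := by
  constructor
  · rintro ⟨u, u1, z, z1, S, h0⟩
    exact ⟨u, u1, z, z1, str_of_strong hΩ Fr hT hF S, h0⟩
  · rintro ⟨u, u1, z, z1, S, h0⟩
    exact ⟨u, u1, z, z1, strong_of_str hΩ hT S fun _ _ => rfl, h0⟩

/-- rest -/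
theorem zero_state (hΩ : IsOpen Ω) (ν : ℝ) :
    IsState (show Set R3 from Ω) ν (0 : L2V Ω) (0 : L2M Ω) (0 : L2M Ω) := by
  have hm0 : (tensL (0 : L2V Ω)) = 0 := by
    have := (isQuad_graphW hΩ).sq 0 (graphW Ω).zero_mem 0
    simpa using this
  have e : (0 : L2M Ω) - ν • (0 : L2M Ω) + tensL (0 : L2V Ω) = 0 := by rw [hm0]; simp
  have key : ∀ p ∈ graphW Ω, ⟪(0 : L2M Ω) - ν • (0 : L2M Ω) + tensL (0 : L2V Ω), p.2⟫_ℝ
      = ⟪(0 : L2V Ω), p.1⟫_ℝ := fun p _ => by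
    rw [e, inner_zero_left, inner_zero_left]
  exact (state_iff hΩ (x := (0 : L2V Ω)) (z := (0 : L2M Ω)) (f := (0 : L2M Ω))).mpr
    ⟨(graphW Ω).zero_mem, 0, key⟩

/-- breakdown at will, public -/
theorem pub_will (hΩ : IsOpen Ω) (hb : Bornology.IsBounded Ω)
    (h : ∃ ν T : ℝ, 0 < ν ∧ 0 < T ∧ ¬ AllStrong (show Set R3 from Ω) ν T)
    {ν : ℝ} (hν : 0 < ν) {S : ℝ} {D D' : ℝ → L2M Ω} (hD : FH S D D')
    {v v' : ℝ → L2V Ω} {Z Z' : ℝ → L2M Ω}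
    (A : IsStrong (show Set R3 from Ω) ν S D v v' Z Z') {s t : ℝ} (hs : 0 ≤ s)
    (hsS : s < S) (hst : s < t) :
    ∃ F F' : ℝ → L2M Ω, (∀ R, FH R F F') ∧ (∀ r ∈ Icc 0 s, F r = D r) ∧
      (∀ τ, 0 < τ → τ < t → ∃ (u u' : ℝ → L2V Ω) (G G' : ℝ → L2M Ω),
        IsStrong (show Set R3 from Ω) ν τ F u u' G G' ∧ u 0 = v 0 ∧
        ∀ r ∈ Icc 0 s, r ≤ τ → u r = v r) ∧
      ¬ HasStrong (show Set R3 from Ω) ν t (v 0) F := by
  obtain ⟨C, Fr⟩ := exists_frame hΩ hb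
  obtain ⟨ν0, T0, hν0, hT0, hA⟩ := h
  have hS : 0 < S := by linarith
  have ht : 0 < t := by linarith
  obtain ⟨x, z, E, E', hst0, hE1, hE2, hno⟩ := not_all hA
  have hE' : FH T0 E E' := ⟨hE1, hE2⟩
  obtain ⟨hm, g, hg⟩ := (state_iff hΩ).mp hst0
  have Q := isQuad_graphW hΩ
  have hc := rellich_W hΩ hb
  have A' := str_of_strong hΩ Fr hS hD A
  have hbad : ¬ Good (graphW Ω) tensL ν0 T0 (⟨x, z, E, E', g⟩ : Dat (L2V Ω) (L2M Ω)) := by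
    intro hG
    exact hno ((has_iff hΩ Fr hT0 hE').mpr hG)
  obtain ⟨G, G1, h1, h2, h3⟩ := abs_main Fr Q hc hν0 hT0
    (d := (⟨x, z, E, E', g⟩ : Dat (L2V Ω) (L2M Ω))) ⟨hm, hE', hg⟩ hbad hν hD A' hs hsS hst
  have hex := fun R => fh_ext ht h1 R
  have hcg : ∀ r ≤ t, pa t G (fun _ => G t) r = G r := fun r hr => pa_le hr
  refine ⟨_, _, hex, fun r hr => ?_, fun τ hτ hτt => ?_, ?_⟩
  · rw [hcg r (hr.2.trans hst.le), h2 r hr]
  · obtain ⟨u, u1, y, y1, k1, k2⟩ := h3.1 τ hτ hτt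
    have k1' : Str (graphW Ω) tensL ν τ (pa t G fun _ => G t) u u1 y y1 :=
      str_congrF k1 fun r hr => hcg r (hr.2.trans hτt.le)
    refine ⟨u, u1, y, y1, strong_of_str hΩ hτ k1' fun _ _ => rfl, k2, fun r hr hrτ => ?_⟩
    rcases hr.1.eq_or_lt with h0 | h0
    · rw [← h0, k2]
    · have k3 : Str (graphW Ω) tensL ν r D u u1 y y1 :=
        str_congrF (k1.mono hrτ) fun q hq => (h2 q ⟨hq.1, hq.2.trans hr.2⟩).symm
      exact ((str_unique Fr hν h0 (by linarith [hr.2]) hD A' k3 k2.symm r ⟨h0.le, le_rfl⟩).1).symm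
  · rw [has_iff hΩ Fr ht (hex t)]
    rintro ⟨u, u1, y, y1, k1, k2⟩
    exact h3.2 ⟨u, u1, y, y1, str_congrF k1 fun r hr => (hcg r hr.2).symm, k2⟩

end Pool.Agent.H62.NF
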