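import Pool.Agent.H62.NF.Bil

/-!
The closed subspace of the gradients, the Riesz lift, and the bilinear map behind `v ↦ v ⊗ v`.
-/

set_option autoImplicit false
set_option linter.unusedSectionVars false

open MeasureTheory Set Filter Topology
open scoped InnerProductSpace

namespace Pool.Agent.H62.NF

open H772R2.NSR (Frame prim_cont)
open H772R2.NSG (mem_cont)
open Pool.Agent.W795.TQ

section

variable {H K : Type} [NormedAddCommGroup H] [InnerProductSpace ℝ H] [CompleteSpace H]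
  [NormedAddCommGroup K] [InnerProductSpace ℝ K] [CompleteSpace K]
  {W : Submodule ℝ (H × K)} {m : H → K} {C : ℝ}

/-- the space of the gradients -/
def KW (W : Submodule ℝ (H × K)) : Submodule ℝ K := W.map (LinearMap.snd ℝ H K)

theorem mem_KW {p : H × K} (hp : p ∈ W) : p.2 ∈ KW W := ⟨p, hp, rfl⟩

theorem sec_ex (w : KW W) : ∃ x : H, (x, (w : K)) ∈ W := by
  obtain ⟨w, p, hp, rfl⟩ := w
  exact ⟨p.1, hp⟩

noncomputable def secF (w : KW W) : H := (sec_ex w).choose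

theorem secF_mem (w : KW W) : (secF w, (w : K)) ∈ W := (sec_ex w).choose_spec

theorem fst_uniq (Fr : Frame W m C) {x y : H} {z : K} (hx : (x, z) ∈ W) (hy : (y, z) ∈ W) :
    x = y := by
  have h := W.sub_mem hx hy
  have h1 := Fr.poinc _ h
  simp only [Prod.mk_sub_mk, sub_self, norm_zero, mul_zero] at h1
  exact sub_eq_zero.mp (norm_le_zero_iff.mp h1)

theorem secF_eq (Fr : Frame W m C) {x : H} {w : KW W} (hx : (x, (w : K)) ∈ W) : secF w = x :=
  fst_uniq Fr (secF_mem w) hx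

/-- the inverse of the gradient -/
noncomputable def secL (Fr : Frame W m C) : KW W →L[ℝ] H :=
  LinearMap.mkContinuous
    { toFun := secF
      map_add' := fun v w => secF_eq Fr (by
        have := W.add_mem (secF_mem v) (secF_mem w)
        simpa using this)
      map_smul' := fun c v => secF_eq Fr (by
        have := W.smul_mem c (secF_mem v)
        simpa using this) } C (fun w => Fr.poinc _ (secF_mem w))

theorem secL_mem (Fr : Frame W m C) (w : KW W) : (secL Fr w, (w : K)) ∈ W := secF_mem w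

theorem secL_eq (Fr : Frame W m C) {p : H × K} (hp : p ∈ W) : secL Fr ⟨p.2, mem_KW hp⟩ = p.1 :=
  secF_eq Fr hp

theorem secL_le (Fr : Frame W m C) (w : KW W) : ‖secL Fr w‖ ≤ C * ‖w‖ := Fr.poinc _ (secF_mem w)

theorem KW_closed (Fr : Frame W m C) : IsClosed (KW W : Set K) := by
  have : CompleteSpace W := Fr.closedW.completeSpace_coe
  let g : W →L[ℝ] K := (ContinuousLinearMap.snd ℝ H K).comp W.subtypeL
  have hg : AntilipschitzWith (Real.toNNReal (max C 1)) g := by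
    refine ContinuousLinearMap.antilipschitz_of_bound g fun p => ?_
    have h1 := Fr.poinc _ p.2
    have h2 : (0 : ℝ) ≤ max C 1 := le_trans zero_le_one (le_max_right _ _)
    rw [Real.coe_toNNReal _ h2]
    show ‖(p : H × K)‖ ≤ max C 1 * ‖(p : H × K).2‖
    rw [Prod.norm_def]
    refine max_le (h1.trans ?_) ?_
    · gcongr
      exact le_max_left _ _
    · calc ‖(p : H × K).2‖ = 1 * ‖(p : H × K).2‖ := (one_mul _).symm
        _ ≤ _ := by
          gcongr
          exact le_max_right _ _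
  have h := hg.isClosed_range g.uniformContinuous
  have e : Set.range g = (KW W : Set K) := by
    ext z
    constructor
    · rintro ⟨p, rfl⟩
      exact mem_KW p.2
    · rintro ⟨p, hp, rfl⟩
      exact ⟨⟨p, hp⟩, rfl⟩
  rwa [e] at h

theorem KW_complete (Fr : Frame W m C) : CompleteSpace (KW W) :=
  (KW_closed Fr).completeSpace_coe

/-- The Riesz lift. -/
theorem exists_lift (Fr : Frame W m C) : ∃ R : H →L[ℝ] K, ∀ h : H, ∀ p ∈ W,
    ⟪R h, p.2⟫_ℝ = ⟪h, p.1⟫_ℝ := by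
  have := KW_complete Fr
  refine ⟨(KW W).subtypeL.comp (ContinuousLinearMap.adjoint (secL Fr)), fun h p hp => ?_⟩
  have h1 := ContinuousLinearMap.adjoint_inner_left (secL Fr) ⟨p.2, mem_KW hp⟩ h
  rw [secL_eq Fr hp] at h1
  exact h1

/-- The map `m` is quadratic. -/
structure IsQuad (W : Submodule ℝ (H × K)) (m : H → K) : Prop where
  add : ∀ p ∈ W, ∀ q ∈ W, ∀ r ∈ W, m (p.1 + q.1 + r.1) + m p.1 + m q.1 + m r.1
    = m (p.1 + q.1) + m (q.1 + r.1) + m (p.1 + r.1)
  smul : ∀ p ∈ W, ∀ q ∈ W, ∀ c : ℝ, m (c • p.1 + q.1) - c ^ 2 • m p.1 - m q.1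
    = c • (m (p.1 + q.1) - m p.1 - m q.1)
  sq : ∀ p ∈ W, ∀ c : ℝ, m (c • p.1) = c ^ 2 • m p.1

theorem m_le (Fr : Frame W m C) {p : H × K} (hp : p ∈ W) : ‖m p.1‖ ≤ C * ‖p.2‖ ^ 2 := by
  have h1 := Fr.quart p hp
  have h2 := Fr.poinc p hp
  have hC := Fr.C0
  refine le_of_sq_le_sq (h1.trans ?_) (by positivity)
  calc C * (‖p.1‖ * ‖p.2‖ ^ 3) ≤ C * ((C * ‖p.2‖) * ‖p.2‖ ^ 3) := by gcongr
    _ = _ := by ring

/-- A bounded bilinear map with `m p.1 = B p.2 p.2`. -/
theorem exists_bil (Fr : Frame W m C) (Q : IsQuad W m) : ∃ B : K →L[ℝ] K →L[ℝ] K,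
    (∀ p ∈ W, m p.1 = B p.2 p.2) ∧ ∀ x y, B x y = B y x := by
  have := KW_complete Fr
  set s := secL Fr with hs
  have sm : ∀ w : KW W, (s w, (w : K)) ∈ W := secL_mem Fr
  -- the polar form
  let b : KW W → KW W → K := fun v w => m (s (v + w)) - m (s v) - m (s w)
  have b_symm : ∀ v w, b v w = b w v := fun v w => by
    show m (s (v + w)) - m (s v) - m (s w) = m (s (w + v)) - m (s w) - m (s v)
    rw [add_comm v w]; abel
  have b_add : ∀ v v' w, b (v + v') w = b v w + b v' w := fun v v' w => by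
    have h := Q.add _ (sm v) _ (sm v') _ (sm w)
    simp only [← map_add] at h
    show m (s (v + v' + w)) - m (s (v + v')) - m (s w) = (m (s (v + w)) - m (s v) - m (s w))
      + (m (s (v' + w)) - m (s v') - m (s w))
    have h2 : m (s (v + v' + w)) = m (s (v + v')) + m (s (v' + w)) + m (s (v + w))
        - m (s v) - m (s v') - m (s w) := by rw [← h]; abel
    rw [h2]; abel
  have b_smul : ∀ (c : ℝ) v w, b (c • v) w = c • b v w := fun c v w => by
    have h := Q.smul _ (sm v) _ (sm w) c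
    have h3 := Q.sq _ (sm v) c
    simp only [← map_add, ← map_smul] at h h3
    show m (s (c • v + w)) - m (s (c • v)) - m (s w) = c • (m (s (v + w)) - m (s v) - m (s w))
    rw [h3, h]
  have b_bd1 : ∀ v w, ‖b v w‖ ≤ C * (‖v + w‖ ^ 2 + ‖v‖ ^ 2 + ‖w‖ ^ 2) := fun v w => by
    have h1 := m_le Fr (sm (v + w))
    have h2 := m_le Fr (sm v)
    have h3 := m_le Fr (sm w)
    calc ‖b v w‖ ≤ ‖m (s (v + w))‖ + ‖m (s v)‖ + ‖m (s w)‖ := by
          refine (norm_sub_le _ _).trans ?_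
          gcongr
          exact norm_sub_le _ _
      _ ≤ C * ‖v + w‖ ^ 2 + C * ‖v‖ ^ 2 + C * ‖w‖ ^ 2 := add_le_add (add_le_add h1 h2) h3
      _ = _ := by ring
  have hC := Fr.C0
  have b_bd : ∀ v w, ‖b v w‖ ≤ (6 * C) * ‖v‖ * ‖w‖ := by
    intro v w
    have z1 : ∀ w, b 0 w = 0 := fun w => by
      have := b_smul 0 0 w
      simpa using this
    rcases eq_or_ne v 0 with rfl | hv
    · rw [z1]; simp
    rcases eq_or_ne w 0 with rfl | hw
    · rw [b_symm, z1]; simp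
    have hv' : 0 < ‖v‖ := norm_pos_iff.mpr hv
    have hw' : 0 < ‖w‖ := norm_pos_iff.mpr hw
    set v1 := ‖v‖⁻¹ • v with hv1
    set w1 := ‖w‖⁻¹ • w with hw1
    have nv : ‖v1‖ = 1 := by rw [hv1, norm_smul, norm_inv, norm_norm]; field_simp
    have nw : ‖w1‖ = 1 := by rw [hw1, norm_smul, norm_inv, norm_norm]; field_simp
    have ev : v = ‖v‖ • v1 := by rw [hv1, smul_smul, mul_inv_cancel₀ hv'.ne', one_smul]
    have ew : w = ‖w‖ • w1 := by rw [hw1, smul_smul, mul_inv_cancel₀ hw'.ne', one_smul]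
    have e : b v w = ‖v‖ • ‖w‖ • b v1 w1 := by
      conv_lhs => rw [ev, ew]
      rw [b_smul, b_symm, b_smul, b_symm w1 v1]
    have h1 := b_bd1 v1 w1
    have h2 : ‖v1 + w1‖ ≤ 2 := (norm_add_le _ _).trans (by rw [nv, nw]; norm_num)
    rw [nv, nw] at h1
    have h4 : ‖v1 + w1‖ ^ 2 ≤ 4 := by nlinarith [norm_nonneg (v1 + w1)]
    have h3 : ‖b v1 w1‖ ≤ 6 * C := h1.trans (by nlinarith)
    rw [e, norm_smul, norm_smul, norm_norm, norm_norm]
    calc ‖v‖ * (‖w‖ * ‖b v1 w1‖) ≤ ‖v‖ * (‖w‖ * (6 * C)) := by gcongr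
      _ = _ := by ring
  let b0 : KW W →L[ℝ] KW W →L[ℝ] K := LinearMap.mkContinuous₂
    (LinearMap.mk₂ ℝ b b_add b_smul
      (fun v w w' => by rw [b_symm, b_add, b_symm w v, b_symm w' v])
      (fun c v w => by rw [b_symm, b_smul, b_symm w v])) (6 * C) b_bd
  have hb0 : ∀ v w, b0 v w = b v w := fun v w => rfl
  let P : K →L[ℝ] KW W := (KW W).orthogonalProjectionOnto
  have hP : ∀ (p : H × K) (hp : p ∈ W), P p.2 = (⟨p.2, mem_KW hp⟩ : KW W) := fun p hp =>
    Submodule.orthogonalProjectionOnto_mem_subspace_eq_self (K := KW W) ⟨p.2, mem_KW hp⟩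
  let B : K →L[ℝ] K →L[ℝ] K := (1 / 2 : ℝ) • b0.bilinearComp P P
  have hB : ∀ x y, B x y = (1 / 2 : ℝ) • b (P x) (P y) := fun x y => rfl
  refine ⟨B, fun p hp => ?_, fun x y => ?_⟩
  · rw [hB, hP p hp]
    show m p.1 = (1 / 2 : ℝ) • (m (s (⟨p.2, _⟩ + ⟨p.2, _⟩)) - m (s ⟨p.2, _⟩) - m (s ⟨p.2, _⟩))
    have e1 : s ⟨p.2, mem_KW hp⟩ = p.1 := secL_eq Fr hp
    rw [map_add, e1]
    have e2 : p.1 + p.1 = (2 : ℝ) • p.1 := (two_smul ℝ _).symm
    rw [e2, Q.sq p hp 2]
    have e3 : (2 : ℝ) ^ 2 • m p.1 - m p.1 - m p.1 = (2 : ℝ) • m p.1 := by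
      module
    rw [e3, smul_smul]
    norm_num
  · rw [hB, hB, b_symm]

end

end Pool.Agent.H62.NF
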