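import Pool.Agent.H62.NF.Quad
import Pool.Graph.R_seed8.W503.TQ.Uni

/-!
Strong solutions in the abstract frame: patching, gluing and scaling in time.
-/

set_option autoImplicit false
set_option linter.unusedSectionVars false

open MeasureTheory Set Filter Topology
open scoped InnerProductSpace

namespace Pool.Agent.H62.NF

open H772R2.NSR (Frame prim_cont grad_unique)
open H772R2.NSG (mem_cont gl gl_le gl_gt gl_ge gl_ae gl_memLp gl_prim gl_int_le gl_int_ge LH)
open Pool.Agent.W795.TQ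
open Pool.Agent.X187.NSC (energy_of_weak str_toLH str_shift str_congrF str_weak_ab mcont)

section FH

variable {X : Type} [NormedAddCommGroup X] [InnerProductSpace ℝ X] [CompleteSpace X] {T : ℝ}

theorem fh_congr {f g f1 : ℝ → X} (hf : FH T f f1) (h : ∀ t ∈ Icc 0 T, g t = f t) :
    FH T g f1 := by
  refine ⟨hf.memLp, fun a b ha hab hb => ?_⟩
  rw [h b ⟨ha.trans hab, hb⟩, h a ⟨ha, hab.trans hb⟩, hf.prim a b ha hab hb]

theorem fh_const (c : X) : FH T (fun _ => c) (fun _ => 0) := by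
  refine ⟨MemLp.zero', fun a b _ _ _ => by simp⟩

/-- `f` up to the time `b`, then `g` -/
noncomputable def pa {Y : Type} (b : ℝ) (f g : ℝ → Y) (t : ℝ) : Y := if t ≤ b then f t else g t

theorem pa_le {Y : Type} {b t : ℝ} {f g : ℝ → Y} (h : t ≤ b) : pa b f g t = f t := by
  simp [pa, h]

theorem pa_gt {Y : Type} {b t : ℝ} {f g : ℝ → Y} (h : b < t) : pa b f g t = g t := by
  simp [pa, not_le.mpr h]

theorem pa_ge {Y : Type} {b t : ℝ} {f g : ℝ → Y} (h0 : f b = g b) (h : b ≤ t) :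
    pa b f g t = g t := by
  rcases h.eq_or_lt with rfl | h
  · rw [pa_le le_rfl, h0]
  · exact pa_gt h

theorem pa_int_le {b c d : ℝ} {f g : ℝ → X} (hcd : c ≤ d) (hd : d ≤ b) :
    ∫ s in c..d, pa b f g s = ∫ s in c..d, f s := by
  refine intervalIntegral.integral_congr fun s hs => ?_
  rw [uIcc_of_le hcd] at hs
  exact pa_le (hs.2.trans hd)

theorem pa_int_ge {b c d : ℝ} {f g : ℝ → X} (hcd : c ≤ d) (hc : b ≤ c) :
    ∫ s in c..d, pa b f g s = ∫ s in c..d, g s := by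
  rw [intervalIntegral.integral_of_le hcd, intervalIntegral.integral_of_le hcd]
  exact setIntegral_congr_fun measurableSet_Ioc fun s hs => pa_gt (hc.trans_lt hs.1)

theorem pa_memLp {b : ℝ} {f g : ℝ → X} (hf : MemLp f 2 (volume.restrict (Ioc 0 b)))
    (hg : MemLp g 2 (volume.restrict (Ioc 0 T))) (hbT : b ≤ T) :
    MemLp (pa b f g) 2 (volume.restrict (Ioc 0 T)) := by
  have e1 : pa b f g = (Iic b).piecewise f g := by
    ext s
    by_cases h : s ≤ b
    · rw [pa_le h, piecewise_eq_of_mem _ _ _ (show s ∈ Iic b from h)]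
    · rw [pa_gt (not_le.mp h), piecewise_eq_of_notMem _ _ _ (show s ∉ Iic b from h)]
  rw [e1]
  refine MemLp.piecewise measurableSet_Iic ?_ ?_
  · rw [Measure.restrict_restrict measurableSet_Iic]
    have e2 : Iic b ∩ Ioc 0 T = Ioc 0 b := by
      ext s; simp only [mem_inter_iff, mem_Iic, mem_Ioc]
      exact ⟨fun h => ⟨h.2.1, h.1⟩, fun h => ⟨h.2, h.1, h.2.trans hbT⟩⟩
    rwa [e2]
  · exact hg.mono_measure Measure.restrict_le_self

theorem pa_prim {b : ℝ} (hb0 : 0 ≤ b) {f f1 g g1 : ℝ → X}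
    (hf1 : MemLp f1 2 (volume.restrict (Ioc 0 b))) (hg1 : MemLp g1 2 (volume.restrict (Ioc 0 T)))
    (hf : ∀ c d, 0 ≤ c → c ≤ d → d ≤ b → f d - f c = ∫ s in c..d, f1 s)
    (hg : ∀ c d, 0 ≤ c → c ≤ d → d ≤ T → g d - g c = ∫ s in c..d, g1 s)
    (hbT : b ≤ T) (h0 : f b = g b) :
    ∀ c d, 0 ≤ c → c ≤ d → d ≤ T → pa b f g d - pa b f g c = ∫ s in c..d, pa b f1 g1 s := by
  intro c d hc hcd hd
  have hL : ∀ c d, 0 ≤ c → c ≤ d → d ≤ b → pa b f g d - pa b f g c
      = ∫ s in c..d, pa b f1 g1 s := by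
    intro c d hc hcd hd
    rw [pa_int_le hcd hd, pa_le hd, pa_le (hcd.trans hd), hf c d hc hcd hd]
  have hR : ∀ c d, b ≤ c → c ≤ d → d ≤ T → pa b f g d - pa b f g c
      = ∫ s in c..d, pa b f1 g1 s := by
    intro c d hc hcd hd
    rw [pa_int_ge hcd hc, pa_ge h0 (hc.trans hcd), pa_ge h0 hc,
      hg c d (hb0.trans hc) hcd hd]
  rcases le_or_gt d b with h1 | h1
  · exact hL c d hc hcd h1
  rcases le_or_gt b c with h2 | h2
  · exact hR c d h2 hcd hd
  have hi := pa_memLp hf1 hg1 hbT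
  rw [← intervalIntegral.integral_add_adjacent_intervals
    (ii_of_memLp (b := b) hi hc h2.le hbT) (ii_of_memLp hi hb0 h1.le hd),
    ← hL c b hc h2.le le_rfl, ← hR b d le_rfl h1.le hd]
  abel

theorem fh_pa {b : ℝ} (hb0 : 0 ≤ b) (hbT : b ≤ T) {f f1 g g1 : ℝ → X} (hf : FH b f f1)
    (hg : FH T g g1) (h0 : f b = g b) : FH T (pa b f g) (pa b f1 g1) :=
  ⟨pa_memLp hf.memLp hg.memLp hbT, pa_prim hb0 hf.memLp hg.memLp hf.prim hg.prim hbT h0⟩

theorem fh_gl {b S : ℝ} (hb0 : 0 ≤ b) (hS : 0 ≤ S) {f f1 g g1 : ℝ → X} (hf : FH b f f1)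
    (hg : FH S g g1) (h0 : g 0 = f b) : FH (b + S) (gl b f g) (gl b f1 g1) :=
  ⟨gl_memLp hb0 hS hf.memLp hg.memLp, gl_prim hb0 hf.memLp hg.memLp hS hf.prim hg.prim h0⟩

end FH

section

variable {H K : Type} [NormedAddCommGroup H] [InnerProductSpace ℝ H] [CompleteSpace H]
  [NormedAddCommGroup K] [InnerProductSpace ℝ K] [CompleteSpace K]
  {W : Submodule ℝ (H × K)} {m : H → K} {C ν T : ℝ}

/-- uniqueness of strong solutions, also of the gradients -/
theorem str_unique (Fr : Frame W m C) (hν : 0 < ν) {τ : ℝ} (hτ : 0 < τ) (hτT : τ ≤ T)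
    {F F1 : ℝ → K} (hF : FH T F F1) {u u1 v v1 : ℝ → H} {z z1 y y1 : ℝ → K}
    (S : Str W m ν T F u u1 z z1) (R : Str W m ν τ F v v1 y y1) (h0 : u 0 = v 0) :
    ∀ t ∈ Icc 0 τ, u t = v t ∧ z t = y t := by
  have h := (Pool.Agent.W503.TQ.proof_uni H K W m C ν T τ F (u 0) u v v1 z y y1 Fr hν hτ hτT
    (fh_cont hF) (str_toLH Fr hF S) R h0.symm).1
  intro t ht
  refine ⟨h t ht, ?_⟩
  have h1 := S.mem t ⟨ht.1, ht.2.trans hτT⟩
  have h2 := R.mem t ht
  rw [h t ht] at h1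
  exact grad_unique Fr h1 h2

/-- gluing of strong solutions -/
theorem str_gl (Fr : Frame W m C) {a S : ℝ} (ha : 0 < a) (hS : 0 < S) {F F1 D D1 : ℝ → K}
    (hF : FH a F F1) (hD : FH S D D1) {u u1 v v1 : ℝ → H} {z z1 y y1 : ℝ → K}
    (A : Str W m ν a F u u1 z z1) (R : Str W m ν S D v v1 y y1) (h0 : v 0 = u a)
    (hFD : D 0 = F a) :
    Str W m ν (a + S) (gl a F D) (gl a u v) (gl a u1 v1) (gl a z y) (gl a z1 y1) := by
  have haS : 0 < a + S := by linarith
  have hz : y 0 = z a := by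
    have h1 := A.mem a ⟨ha.le, le_rfl⟩
    have h2 := R.mem 0 ⟨le_rfl, hS.le⟩
    rw [h0] at h2
    exact grad_unique Fr h2 h1
  have hmem : ∀ t ∈ Icc 0 (a + S), (gl a u v t, gl a z y t) ∈ W := by
    intro t ht
    rcases le_or_gt t a with h | h
    · rw [gl_le h, gl_le h]; exact A.mem t ⟨ht.1, h⟩
    · rw [gl_gt h, gl_gt h]; exact R.mem _ ⟨by linarith, by linarith [ht.2]⟩
  have hmem1 : ∀ᵐ s ∂(volume.restrict (Ioc 0 (a + S))), (gl a u1 v1 s, gl a z1 y1 s) ∈ W := by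
    have h1 := gl_ae (Y := H × K) (a := fun s => (u1 s, z1 s)) (b := fun s => (v1 s, y1 s))
      (P := fun p => p ∈ W) A.mem1 R.mem1
    filter_upwards [h1] with s hs
    rcases le_or_gt s a with h | h
    · rw [gl_le h] at hs; rw [gl_le h, gl_le h]; exact hs
    · rw [gl_gt h] at hs; rw [gl_gt h, gl_gt h]; exact hs
  have hpu := gl_prim ha.le A.u1m R.u1m hS.le A.pu R.pu h0
  have hpz := gl_prim ha.le A.z1m R.z1m hS.le A.pz R.pz hz
  have hu1 := gl_memLp ha.le hS.le A.u1m R.u1m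
  have hz1 := gl_memLp ha.le hS.le A.z1m R.z1m
  have hFg := fh_gl ha.le hS.le hF hD hFD
  have hFc := fh_cont hFg
  have hzc : ContinuousOn (gl a z y) (Icc 0 (a + S)) := prim_cont hz1 hpz
  have huc : ContinuousOn (gl a u v) (Icc 0 (a + S)) := prim_cont hu1 hpu
  have hmc := mcont Fr hmem huc hzc
  have hgc : ContinuousOn (fun s => gl a F D s - ν • gl a z y s + m (gl a u v s))
      (Icc 0 (a + S)) := (hFc.sub (hzc.const_smul ν)).add hmc
  have hweak : ∀ p ∈ W, ∀ t ∈ Icc 0 (a + S), ⟪gl a u v t - gl a u v 0, p.1⟫_ℝ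
      = ∫ s in (0 : ℝ)..t, ⟪gl a F D s - ν • gl a z y s + m (gl a u v s), p.2⟫_ℝ := by
    intro p hp t ht
    have e : ∀ s, ⟪gl a F D s - ν • gl a z y s + m (gl a u v s), p.2⟫_ℝ
        = gl a (fun s => ⟪F s - ν • z s + m (u s), p.2⟫_ℝ)
          (fun s => ⟪D s - ν • y s + m (v s), p.2⟫_ℝ) s := by
      intro s
      rcases le_or_gt s a with h | h
      · simp only [gl_le h]
      · simp only [gl_gt h]
    simp only [e]
    rcases le_or_gt t a with h | h
    · rw [gl_int_le ht.1 h, gl_le h, gl_le ha.le]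
      exact A.weak p hp t ⟨ht.1, h⟩
    · have hii : ∀ c d, 0 ≤ c → c ≤ d → d ≤ a + S → IntervalIntegrable
          (gl a (fun s => ⟪F s - ν • z s + m (u s), p.2⟫_ℝ)
          (fun s => ⟪D s - ν • y s + m (v s), p.2⟫_ℝ)) volume c d := by
        intro c d hc hcd hd
        have h1 : ContinuousOn (fun s => ⟪gl a F D s - ν • gl a z y s + m (gl a u v s), p.2⟫_ℝ)
          (Icc 0 (a + S)) := hgc.inner continuousOn_const
        simp only [e] at h1
        refine ContinuousOn.intervalIntegrable ?_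
        rw [uIcc_of_le hcd]
        exact h1.mono (Icc_subset_Icc hc hd)
      rw [← intervalIntegral.integral_add_adjacent_intervals (hii 0 a le_rfl ha.le (by linarith))
        (hii a t ha.le h.le ht.2), gl_int_le ha.le le_rfl, gl_int_ge h.le le_rfl, sub_self,
        gl_gt h, gl_le ha.le, ← A.weak p hp a ⟨ha.le, le_rfl⟩,
        ← R.weak p hp (t - a) ⟨by linarith, by linarith [ht.2]⟩, h0, ← inner_add_left]
      congr 1
      abel
  refine ⟨hmem, hmem1, ?_, hu1, hz1, hpu, hpz, hweak,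
    energy_of_weak Fr haS hFc hmem hu1 hz1 hpu hpz hweak⟩
  obtain ⟨c, hc⟩ := A.bd
  obtain ⟨d, hd⟩ := R.bd
  refine ⟨max c d, gl_ae (P := fun x => ‖x‖ ≤ max c d) ?_ ?_⟩
  · filter_upwards [hc] with s hs using hs.trans (le_max_left _ _)
  · filter_upwards [hd] with s hs using hs.trans (le_max_right _ _)

/-- patching of strong solutions -/
theorem str_pa (Fr : Frame W m C) {b : ℝ} (hb : 0 < b) (hbT : b ≤ T) {F F1 D D1 : ℝ → K}
    (hF : FH b F F1) (hD : FH T D D1) {u u1 v v1 : ℝ → H} {z z1 y y1 : ℝ → K}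
    (A : Str W m ν b F u u1 z z1) (R : Str W m ν T D v v1 y y1) (h0 : u b = v b)
    (hFD : F b = D b) :
    Str W m ν T (pa b F D) (pa b u v) (pa b u1 v1) (pa b z y) (pa b z1 y1) := by
  have hT : 0 < T := hb.trans_le hbT
  have hz : z b = y b := by
    have h1 := A.mem b ⟨hb.le, le_rfl⟩
    have h2 := R.mem b ⟨hb.le, hbT⟩
    rw [← h0] at h2
    exact grad_unique Fr h1 h2
  have hmem : ∀ t ∈ Icc 0 T, (pa b u v t, pa b z y t) ∈ W := by
    intro t ht
    rcases le_or_gt t b with h | h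
    · rw [pa_le h, pa_le h]; exact A.mem t ⟨ht.1, h⟩
    · rw [pa_gt h, pa_gt h]; exact R.mem _ ht
  have hmem1 : ∀ᵐ s ∂(volume.restrict (Ioc 0 T)), (pa b u1 v1 s, pa b z1 y1 s) ∈ W := by
    have h1 := A.mem1
    have h2 := R.mem1
    rw [ae_restrict_iff' measurableSet_Ioc] at h1 h2 ⊢
    filter_upwards [h1, h2] with s h1 h2 hs
    rcases le_or_gt s b with h | h
    · rw [pa_le h, pa_le h]; exact h1 ⟨hs.1, h⟩
    · rw [pa_gt h, pa_gt h]; exact h2 hs
  have hpu := pa_prim hb.le A.u1m R.u1m A.pu R.pu hbT h0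
  have hpz := pa_prim hb.le A.z1m R.z1m A.pz R.pz hbT hz
  have hu1 := pa_memLp A.u1m R.u1m hbT
  have hz1 := pa_memLp A.z1m R.z1m hbT
  have hFg := fh_pa hb.le hbT hF hD hFD
  have hFc := fh_cont hFg
  have hzc : ContinuousOn (pa b z y) (Icc 0 T) := prim_cont hz1 hpz
  have huc : ContinuousOn (pa b u v) (Icc 0 T) := prim_cont hu1 hpu
  have hmc := mcont Fr hmem huc hzc
  have hgc : ContinuousOn (fun s => pa b F D s - ν • pa b z y s + m (pa b u v s))
      (Icc 0 T) := (hFc.sub (hzc.const_smul ν)).add hmc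
  have hweak : ∀ p ∈ W, ∀ t ∈ Icc 0 T, ⟪pa b u v t - pa b u v 0, p.1⟫_ℝ
      = ∫ s in (0 : ℝ)..t, ⟪pa b F D s - ν • pa b z y s + m (pa b u v s), p.2⟫_ℝ := by
    intro p hp t ht
    have e : ∀ s, ⟪pa b F D s - ν • pa b z y s + m (pa b u v s), p.2⟫_ℝ
        = pa b (fun s => ⟪F s - ν • z s + m (u s), p.2⟫_ℝ)
          (fun s => ⟪D s - ν • y s + m (v s), p.2⟫_ℝ) s := by
      intro s
      rcases le_or_gt s b with h | h
      · simp only [pa_le h]
      · simp only [pa_gt h]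
    simp only [e]
    rcases le_or_gt t b with h | h
    · rw [pa_int_le ht.1 h, pa_le h, pa_le hb.le]
      exact A.weak p hp t ⟨ht.1, h⟩
    · have hii : ∀ c d, 0 ≤ c → c ≤ d → d ≤ T → IntervalIntegrable
          (pa b (fun s => ⟪F s - ν • z s + m (u s), p.2⟫_ℝ)
          (fun s => ⟪D s - ν • y s + m (v s), p.2⟫_ℝ)) volume c d := by
        intro c d hc hcd hd
        have h1 : ContinuousOn (fun s => ⟪pa b F D s - ν • pa b z y s + m (pa b u v s), p.2⟫_ℝ)
          (Icc 0 T) := hgc.inner continuousOn_const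
        simp only [e] at h1
        refine ContinuousOn.intervalIntegrable ?_
        rw [uIcc_of_le hcd]
        exact h1.mono (Icc_subset_Icc hc hd)
      rw [← intervalIntegral.integral_add_adjacent_intervals (hii 0 b le_rfl hb.le hbT)
        (hii b t hb.le h.le ht.2), pa_int_le hb.le le_rfl, pa_int_ge h.le le_rfl,
        pa_gt h, pa_le hb.le, ← A.weak p hp b ⟨hb.le, le_rfl⟩,
        ← str_weak_ab Fr hD R hp hb.le h.le ht.2, ← inner_add_left, h0]
      congr 1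
      abel
  refine ⟨hmem, hmem1, ?_, hu1, hz1, hpu, hpz, hweak,
    energy_of_weak Fr hT hFc hmem hu1 hz1 hpu hpz hweak⟩
  obtain ⟨c, hc⟩ := A.bd
  obtain ⟨d, hd⟩ := R.bd
  refine ⟨max c d, ?_⟩
  rw [ae_restrict_iff' measurableSet_Ioc] at hc hd ⊢
  filter_upwards [hc, hd] with s h1 h2 hs
  rcases le_or_gt s b with h | h
  · rw [pa_le h]; exact (h1 ⟨hs.1, h⟩).trans (le_max_left _ _)
  · rw [pa_gt h]; exact (h2 hs).trans (le_max_right _ _)

end

end Pool.Agent.H62.NF
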