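import Pool.Agent.H62.NF.Bad

/-!
The transplantation of a breakdown.
-/

set_option autoImplicit false
set_option linter.unusedSectionVars false

open MeasureTheory Set Filter Topology
open scoped InnerProductSpace ContDiff

namespace Pool.Agent.H62.NF

open H772R2.NSR (Frame prim_cont grad_unique)
open H772R2.NSG (mem_cont gl gl_le gl_gt gl_ge gl_ae gl_memLp gl_prim gl_int_le gl_int_ge LH)
open Pool.Agent.W795.TQ
open Pool.Agent.X187.NSC (energy_of_weak str_toLH str_shift str_congrF str_weak_ab mcont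
  FH.shift)

variable {H K : Type} [NormedAddCommGroup H] [InnerProductSpace ℝ H] [CompleteSpace H]
  [NormedAddCommGroup K] [InnerProductSpace ℝ K] [CompleteSpace K]
  {W : Submodule ℝ (H × K)} {m : H → K} {C ν T : ℝ}

theorem fh_smooth {g : ℝ → ℝ} (hg : ContDiff ℝ ∞ g) : FH T g (deriv g) := by
  have hc : Continuous (deriv g) := hg.continuous_deriv (by simp)
  refine ⟨mem_cont hc.continuousOn, fun a b _ _ _ => ?_⟩
  rw [intervalIntegral.integral_deriv_eq_sub (fun x _ => (hg.differentiable (by simp)) x)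
    (hc.intervalIntegrable _ _)]

/-- the cutoff in time -/
noncomputable def cut (L : ℝ) (t : ℝ) : ℝ := 1 - Real.smoothTransition (3 / L * t - 1)

theorem cut_smooth (L : ℝ) : ContDiff ℝ ∞ (cut L) := by
  unfold cut
  have h : ContDiff ℝ ∞ (fun t : ℝ => 3 / L * t - 1) := by fun_prop
  exact contDiff_const.sub (Real.smoothTransition.contDiff.comp h)

theorem cut_one {L t : ℝ} (hL : 0 < L) (h : t ≤ L / 3) : cut L t = 1 := by
  unfold cut
  rw [Real.smoothTransition.zero_of_nonpos, sub_zero]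
  have : 3 / L * t ≤ 3 / L * (L / 3) := by gcongr
  have e : 3 / L * (L / 3) = 1 := by field_simp
  linarith

theorem cut_zero {L t : ℝ} (hL : 0 < L) (h : 2 * L / 3 ≤ t) : cut L t = 0 := by
  unfold cut
  rw [Real.smoothTransition.one_of_one_le, sub_self]
  have : 3 / L * (2 * L / 3) ≤ 3 / L * t := by gcongr
  have e : 3 / L * (2 * L / 3) = 2 := by field_simp
  linarith

theorem dcut_one {L t : ℝ} (hL : 0 < L) (h : t < L / 3) : deriv (cut L) t = 0 := by
  have : cut L =ᶠ[𝓝 t] fun _ => 1 := by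
    filter_upwards [Iio_mem_nhds h] with s hs using cut_one hL (le_of_lt hs)
  rw [this.deriv_eq, deriv_const]

theorem dcut_zero {L t : ℝ} (hL : 0 < L) (h : 2 * L / 3 < t) : deriv (cut L) t = 0 := by
  have : cut L =ᶠ[𝓝 t] fun _ => 0 := by
    filter_upwards [Ioi_mem_nhds h] with s hs using cut_zero hL (le_of_lt hs)
  rw [this.deriv_eq, deriv_const]

/-- A breakdown at the time `L` can be reached from the initial value of any strong solution on
`[0,L]`. -/
theorem bad_trans (Fr : Frame W m C) (hν : 0 < ν) {R : H →L[ℝ] K}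
    (hR : ∀ h : H, ∀ p ∈ W, ⟪R h, p.2⟫_ℝ = ⟪h, p.1⟫_ℝ)
    {B : K →L[ℝ] K →L[ℝ] K} (hB : ∀ p ∈ W, m p.1 = B p.2 p.2) {L : ℝ} (hL : 0 < L)
    {D D1 : ℝ → K} (hD : FH L D D1) {F F1 : ℝ → K} (hF : FH L F F1) {v v1 : ℝ → H}
    {y y1 : ℝ → K} (A : Str W m ν L D v v1 y y1) {x : H} (hBad : Bad W m ν L F x) :
    ∃ G G1 : ℝ → K, FH L G G1 ∧ G 0 = D 0 ∧ Bad W m ν L G (v 0) := by
  set b : ℝ := 3 * L / 4 with hbdef
  have hb : 0 < b := by positivity
  have hbL : b < L := by rw [hbdef]; linarith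
  obtain ⟨u, u1, z, z1, S, h0⟩ := hBad.1 b hb hbL
  have hθ : FH b (cut L) (deriv (cut L)) := fh_smooth (cut_smooth L)
  have hdc : ContDiff ℝ ∞ (deriv (cut L)) := by
    have := (contDiff_infty_iff_deriv.mp (cut_smooth L)).2
    exact this
  have hθ1 : FH b (deriv (cut L)) (deriv (deriv (cut L))) := fh_smooth hdc
  have cb0 : cut L b = 0 := cut_zero hL (by rw [hbdef]; linarith)
  have cb1 : deriv (cut L) b = 0 := dcut_zero hL (by rw [hbdef]; linarith)
  have c00 : cut L 0 = 1 := cut_one hL (by positivity)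
  have c01 : deriv (cut L) 0 = 0 := dcut_one hL (by positivity)
  have hDb := fh_mono' hD hbL.le
  have hFb := fh_mono' hF hbL.le
  obtain ⟨M, G1, hM⟩ := str_mix Fr hb hR hB hθ hθ1 hDb hFb (A.mono hbL.le) S
  set Mf := mixF m R (cut L) (deriv (cut L)) D F v u with hMf
  have hMb : Mf b = F b := by
    simp only [hMf, mixF, cb0, cb1, zero_smul, sub_zero, one_smul, zero_add, add_zero]
    abel
  have hM0 : Mf 0 = D 0 := by
    simp only [hMf, mixF, c00, c01, zero_smul, sub_self, one_smul, add_zero]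
    abel
  have hwb : cut L b • v b + (1 - cut L b) • u b = u b := by
    rw [cb0]; simp
  have hw0 : cut L 0 • v 0 + (1 - cut L 0) • u 0 = v 0 := by
    rw [c00]; simp
  have hG := fh_pa hb.le hbL.le hM hF hMb
  refine ⟨pa b Mf F, _, hG, by rw [pa_le hb.le, hM0], fun t ht htL => ?_, ?_⟩
  · rcases le_or_gt t b with h | h
    · exact ⟨_, _, _, _, str_congrF (M.mono h) fun s hs => pa_le (hs.2.trans h), hw0⟩
    · obtain ⟨u', u1', z', z1', S', h0'⟩ := hBad.1 t ht htL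
      have hFt := fh_mono' hF htL.le
      have h1 := (str_unique Fr hν hb h.le hFt S' S (h0'.trans h0.symm) b ⟨hb.le, le_rfl⟩).1
      have h2 := str_pa Fr hb h.le hM hFt M S' (hwb.trans h1.symm) hMb
      exact ⟨_, _, _, _, h2, by rw [pa_le hb.le]; exact hw0⟩
  · rintro ⟨w, w1, ζ, ζ1, Sw, hw⟩
    have hMb' : Str W m ν b (pa b Mf F) (fun t => cut L t • v t + (1 - cut L t) • u t) _ _ _ :=
      str_congrF M fun s hs => pa_le hs.2
    have h1 := (str_unique Fr hν hb hbL.le hG Sw hMb' (hw.trans hw0.symm) b ⟨hb.le, le_rfl⟩).1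
    have h1' : u b = w b := (h1.trans hwb).symm
    have h2 := str_pa Fr hb hbL.le hFb hG S Sw h1' (by rw [pa_le le_rfl, hMb])
    refine hBad.2 ⟨_, _, _, _, str_congrF h2 fun t _ => ?_, by rw [pa_le hb.le, h0]⟩
    rcases le_or_gt t b with h | h
    · rw [pa_le h]
    · rw [pa_gt h, pa_gt h]

/-- from a solution one can go to rest -/
theorem go_rest (Fr : Frame W m C) {R : H →L[ℝ] K}
    (hR : ∀ h : H, ∀ p ∈ W, ⟪R h, p.2⟫_ℝ = ⟪h, p.1⟫_ℝ)
    {B : K →L[ℝ] K →L[ℝ] K} (hB : ∀ p ∈ W, m p.1 = B p.2 p.2) {a L : ℝ} (ha : 0 < a)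
    (hL : a ≤ L) {D D1 : ℝ → K} (hD : FH a D D1) {v v1 : ℝ → H}
    {y y1 : ℝ → K} (A : Str W m ν a D v v1 y y1) :
    ∃ (G G1 : ℝ → K) (w w1 : ℝ → H) (ζ ζ1 : ℝ → K), FH L G G1 ∧ G 0 = D 0 ∧ w 0 = v 0 ∧
      Str W m ν L G w w1 ζ ζ1 := by
  have hm0 : m 0 = 0 := by
    have := hB 0 W.zero_mem
    simpa using this
  have hZ : ∀ T : ℝ, Str W m ν T (fun _ => (0 : K)) (fun _ => (0 : H)) (fun _ => 0)
      (fun _ => (0 : K)) (fun _ => 0) := fun T =>
    ⟨fun _ _ => W.zero_mem, Eventually.of_forall fun _ => W.zero_mem, ⟨0, by simp⟩,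
      MemLp.zero', MemLp.zero', by simp, by simp, by simp [hm0], by simp⟩
  have hθ : FH a (cut a) (deriv (cut a)) := fh_smooth (cut_smooth a)
  have hdc : ContDiff ℝ ∞ (deriv (cut a)) := (contDiff_infty_iff_deriv.mp (cut_smooth a)).2
  have hθ1 : FH a (deriv (cut a)) (deriv (deriv (cut a))) := fh_smooth hdc
  have cb0 : cut a a = 0 := cut_zero ha (by linarith)
  have cb1 : deriv (cut a) a = 0 := dcut_zero ha (by linarith)
  have c00 : cut a 0 = 1 := cut_one ha (by positivity)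
  have c01 : deriv (cut a) 0 = 0 := dcut_one ha (by positivity)
  obtain ⟨M, G1, hM⟩ := str_mix Fr ha hR hB hθ hθ1 hD (fh_const 0) A (hZ a)
  set Mf := mixF m R (cut a) (deriv (cut a)) D (fun _ => 0) v (fun _ => 0) with hMf
  have hMb : Mf a = 0 := by
    simp only [hMf, mixF, cb0, cb1, zero_smul, sub_zero, one_smul, zero_add, add_zero, sub_self]
  have hM0 : Mf 0 = D 0 := by
    simp only [hMf, mixF, c00, c01, zero_smul, sub_self, one_smul, add_zero, smul_zero]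
    abel
  have hwb : cut a a • v a + (1 - cut a a) • (0 : H) = 0 := by rw [cb0]; simp
  have hw0 : cut a 0 • v 0 + (1 - cut a 0) • (0 : H) = v 0 := by rw [c00]; simp
  have h2 := str_pa Fr ha hL hM (fh_const 0) M (hZ L) hwb hMb
  exact ⟨_, _, _, _, _, _, fh_pa ha.le hL hM (fh_const 0) hMb, by rw [pa_le ha.le, hM0],
    by rw [pa_le ha.le]; exact hw0, h2⟩

/-- a strong solution on `[0,S]` can be changed after the time `s < S` so that it exists as long as
we please -/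
theorem extend (Fr : Frame W m C) {R : H →L[ℝ] K}
    (hR : ∀ h : H, ∀ p ∈ W, ⟪R h, p.2⟫_ℝ = ⟪h, p.1⟫_ℝ)
    {B : K →L[ℝ] K →L[ℝ] K} (hB : ∀ p ∈ W, m p.1 = B p.2 p.2)
    {S : ℝ} {D D1 : ℝ → K} (hD : FH S D D1) {v v1 : ℝ → H} {y y1 : ℝ → K}
    (A : Str W m ν S D v v1 y y1) {s L : ℝ} (hs : 0 ≤ s) (hsS : s < S) (hL : S ≤ L) :
    ∃ (G G1 : ℝ → K) (w w1 : ℝ → H) (ζ ζ1 : ℝ → K), FH L G G1 ∧ (∀ r ∈ Icc 0 s, G r = D r) ∧
      w 0 = v 0 ∧ Str W m ν L G w w1 ζ ζ1 := by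
  have hS : 0 < S := by linarith
  rcases hs.eq_or_lt with h | h
  · obtain ⟨G, G1, w, w1, ζ, ζ1, k1, k2, k3, k4⟩ := go_rest Fr hR hB hS hL hD A
    refine ⟨G, G1, w, w1, ζ, ζ1, k1, fun r hr => ?_, k3, k4⟩
    have : r = 0 := le_antisymm (hr.2.trans h.symm.le) hr.1
    rw [this, k2]
  · have A' := str_shift Fr hD A h.le hsS.le
    have hD' : FH (S - s) (fun r => D (s + r)) (fun r => D1 (s + r)) :=
      FH.shift hD h.le (by linarith)
    obtain ⟨G, G1, w, w1, ζ, ζ1, k1, k2, k3, k4⟩ := go_rest Fr hR hB (by linarith)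
      (by linarith : S - s ≤ L - s) hD' A'
    simp only [add_zero] at k2 k3
    have hDs := fh_mono' hD hsS.le
    have h1 := str_gl Fr h (by linarith : 0 < L - s) hDs k1 (A.mono hsS.le) k4 k3 k2
    have h2 := fh_gl h.le (by linarith : 0 ≤ L - s) hDs k1 k2
    rw [add_sub_cancel] at h1 h2
    exact ⟨_, _, _, _, _, _, h2, fun r hr => gl_le hr.2, gl_le h.le, h1⟩

/-- If there is a breakdown, then every strong solution on `[0,S]` can be made to break down at
every time `t ∈ (s,S]` by a change of the force after the time `s`. -/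
theorem bad_main (Fr : Frame W m C) (hν : 0 < ν) {R : H →L[ℝ] K}
    (hR : ∀ h : H, ∀ p ∈ W, ⟪R h, p.2⟫_ℝ = ⟪h, p.1⟫_ℝ)
    {B : K →L[ℝ] K →L[ℝ] K} (hB : ∀ p ∈ W, m p.1 = B p.2 p.2)
    {F F1 : ℝ → K} (hT : 0 < T) (hF : FH T F F1) {x : H} (hBad : Bad W m ν T F x)
    {S : ℝ} {D D1 : ℝ → K} (hD : FH S D D1) {v v1 : ℝ → H} {y y1 : ℝ → K}
    (A : Str W m ν S D v v1 y y1) {s t : ℝ} (hs : 0 ≤ s) (hst : s < t) (htS : t ≤ S) :
    ∃ G G1 : ℝ → K, FH t G G1 ∧ (∀ r ∈ Icc 0 s, G r = D r) ∧ Bad W m ν t G (v 0) := by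
  -- the starting time of the transplantation
  obtain ⟨s', hs', hs't, hs'0, hL⟩ : ∃ s', s ≤ s' ∧ s' < t ∧ 0 < s' ∧ t - s' < T := by
    refine ⟨max ((s + t) / 2) (t - T / 2), ?_, ?_, ?_, ?_⟩
    · exact le_trans (by linarith) (le_max_left _ _)
    · exact max_lt (by linarith) (by linarith)
    · exact lt_of_lt_of_le (by linarith) (le_max_left _ _)
    · have := le_max_right ((s + t) / 2) (t - T / 2)
      linarith
  set L := t - s' with hLdef
  have hL0 : 0 < L := by linarith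
  obtain ⟨x', hBad'⟩ := bad_shift Fr hν hF hBad (a := T - L) (by linarith) (by linarith)
  rw [sub_sub_cancel] at hBad'
  have hF' : FH L (fun r => F (T - L + r)) (fun r => F1 (T - L + r)) :=
    FH.shift hF (by linarith) (by linarith)
  have A' := (str_shift Fr hD A hs'0.le (by linarith)).mono (t := L) (by linarith)
  have hD' : FH L (fun r => D (s' + r)) (fun r => D1 (s' + r)) :=
    FH.shift hD hs'0.le (by linarith)
  obtain ⟨G, G1, hG, hG0, hGB⟩ := bad_trans Fr hν hR hB hL0 hD' hF' A' hBad'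
  simp only [add_zero] at hG0 hGB
  have hDs := fh_mono' hD (show s' ≤ S by linarith)
  have h1 := bad_prepend Fr hν hs'0 hL0 hDs hG (A.mono (by linarith)) hG0 hGB
  have e : s' + L = t := by rw [hLdef]; ring
  rw [e] at h1
  refine ⟨_, _, e ▸ fh_gl hs'0.le hL0.le hDs hG hG0, fun r hr => gl_le (hr.2.trans hs'), h1⟩

/-- the same for all times `t > s` -/
theorem bad_main2 (Fr : Frame W m C) (hν : 0 < ν) {R : H →L[ℝ] K}
    (hR : ∀ h : H, ∀ p ∈ W, ⟪R h, p.2⟫_ℝ = ⟪h, p.1⟫_ℝ)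
    {B : K →L[ℝ] K →L[ℝ] K} (hB : ∀ p ∈ W, m p.1 = B p.2 p.2)
    {F F1 : ℝ → K} (hT : 0 < T) (hF : FH T F F1) {x : H} (hBad : Bad W m ν T F x)
    {S : ℝ} {D D1 : ℝ → K} (hD : FH S D D1) {v v1 : ℝ → H} {y y1 : ℝ → K}
    (A : Str W m ν S D v v1 y y1) {s t : ℝ} (hs : 0 ≤ s) (hsS : s < S) (hst : s < t) :
    ∃ G G1 : ℝ → K, FH t G G1 ∧ (∀ r ∈ Icc 0 s, G r = D r) ∧ Bad W m ν t G (v 0) := by
  rcases le_or_gt t S with h | h
  · exact bad_main Fr hν hR hB hT hF hBad hD A hs hst h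
  · obtain ⟨G, G1, w, w1, ζ, ζ1, k1, k2, k3, k4⟩ := extend Fr hR hB hD A hs hsS h.le
    obtain ⟨E, E1, l1, l2, l3⟩ := bad_main Fr hν hR hB hT hF hBad k1 k4 hs hst le_rfl
    exact ⟨E, E1, l1, fun r hr => by rw [l2 r hr, k2 r hr], k3 ▸ l3⟩

end Pool.Agent.H62.NF
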